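import Pool.Agent.P55f1f5.Base

/-!
# The space of nonexpansive self-maps of a closed subset of a separable Banach space is Baire
-/

namespace Pool.Agent.P55f1f5

open Filter Topology Set

theorem exists_ext {M : Type*} [MetricSpace M] [CompleteSpace M] (D : ℕ → M) (hD : DenseRange D)
    (g : ℕ → M) (hg : ∀ m n, dist (g m) (g n) ≤ dist (D m) (D n)) :
    ∃ f : M → M, (∀ x y, dist (f x) (f y) ≤ dist x y) ∧ ∀ n, f (D n) = g n := by
  have h1 : ∀ x : M, ∀ k : ℕ, ∃ n, dist x (D n) < 1 / ((k:ℝ) + 1) := fun x k =>
    hD.exists_dist_lt x (by positivity)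
  choose u hu using h1
  have hlim : ∀ x, Tendsto (fun k => D (u x k)) atTop (𝓝 x) := by
    intro x
    rw [tendsto_iff_dist_tendsto_zero]
    refine squeeze_zero (fun _ => dist_nonneg) (fun k => ?_)
      (tendsto_one_div_add_atTop_nhds_zero_nat (𝕜 := ℝ))
    rw [dist_comm]
    exact (hu x k).le
  have hc : ∀ x, CauchySeq (fun k => g (u x k)) := by
    intro x
    have h := (hlim x).cauchySeq
    rw [Metric.cauchySeq_iff] at h ⊢
    intro ε hε
    obtain ⟨N, hN⟩ := h ε hε
    exact ⟨N, fun m hm n hn => (hg _ _).trans_lt (hN m hm n hn)⟩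
  choose f hf using fun x => cauchySeq_tendsto_of_complete (hc x)
  refine ⟨f, fun x y => ?_, fun n => ?_⟩
  · exact le_of_tendsto_of_tendsto ((hf x).dist (hf y)) ((hlim x).dist (hlim y))
      (Eventually.of_forall fun k => hg _ _)
  · refine tendsto_nhds_unique (hf (D n)) ?_
    rw [tendsto_iff_dist_tendsto_zero]
    refine squeeze_zero (fun _ => dist_nonneg) (fun k => hg _ _) ?_
    exact tendsto_iff_dist_tendsto_zero.mp (hlim (D n))

variable {X : Type*} [NormedAddCommGroup X] {C : Set X}

theorem isClosedEmbedding_restr [CompleteSpace X] (hcl : IsClosed C) (D : ℕ → C)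
    (hD : DenseRange D) : IsClosedEmbedding (fun (f : Nonexp C) (n : ℕ) => f.1 (D n)) := by
  have : CompleteSpace C := hcl.completeSpace_coe
  have hcont : Continuous (fun (f : Nonexp C) (n : ℕ) => f.1 (D n)) :=
    continuous_pi fun n => continuous_eval (D n)
  refine ⟨⟨?_, ?_⟩, ?_⟩
  · rw [isInducing_iff_nhds]
    intro f
    apply le_antisymm
    · exact (hcont.tendsto f).le_comap
    · have : Tendsto (fun g : Nonexp C => g) (comap (fun (f : Nonexp C) (n : ℕ) => f.1 (D n))
          (𝓝 (fun n => f.1 (D n)))) (𝓝 f) := by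
        rw [tendsto_iff]
        intro x
        rw [Metric.tendsto_nhds]
        intro ε hε
        obtain ⟨n, hn⟩ := hD.exists_dist_lt x (show (0:ℝ) < ε / 3 by positivity)
        have h2 : Tendsto (fun g : Nonexp C => g.1 (D n)) (comap (fun (f : Nonexp C) (n : ℕ) =>
            f.1 (D n)) (𝓝 (fun n => f.1 (D n)))) (𝓝 (f.1 (D n))) :=
          ((continuous_apply (A := fun _ : ℕ => C) n).tendsto (fun n => f.1 (D n))).comp
            tendsto_comap
        rw [Metric.tendsto_nhds] at h2
        filter_upwards [h2 (ε / 3) (by positivity)] with g hg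
        have a1 := g.2 x (D n)
        have a2 := f.2 (D n) x
        rw [dist_comm (D n) x] at a2
        have a3 := dist_triangle4 (g.1 x) (g.1 (D n)) (f.1 (D n)) (f.1 x)
        linarith
      exact this
  · intro f g hfg
    apply Subtype.ext
    have hcf : Continuous f.1 := LipschitzWith.continuous (K := 1)
      (LipschitzWith.of_dist_le_mul fun x y => by simpa using f.2 x y)
    have hcg : Continuous g.1 := LipschitzWith.continuous (K := 1)
      (LipschitzWith.of_dist_le_mul fun x y => by simpa using g.2 x y)
    refine DenseRange.equalizer hD hcf hcg ?_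
    ext1 n
    exact congrFun hfg n
  · have : range (fun (f : Nonexp C) (n : ℕ) => f.1 (D n)) =
        ⋂ m, ⋂ n, {g : ℕ → C | dist (g m) (g n) ≤ dist (D m) (D n)} := by
      ext g
      simp only [mem_range, mem_iInter, mem_ofPred_eq]
      constructor
      · rintro ⟨f, rfl⟩ m n
        exact f.2 _ _
      · intro hg
        obtain ⟨f, hf1, hf2⟩ := exists_ext D hD g hg
        exact ⟨⟨f, hf1⟩, funext hf2⟩
    rw [this]
    exact isClosed_iInter fun m => isClosed_iInter fun n =>
      isClosed_le ((continuous_apply m).dist (continuous_apply n)) continuous_const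

theorem baireSpace_nonexp [CompleteSpace X] [TopologicalSpace.SeparableSpace X] (hcl : IsClosed C)
    (hne : C.Nonempty) : BaireSpace (Nonexp C) := by
  have : CompleteSpace C := hcl.completeSpace_coe
  have : Nonempty C := hne.to_subtype
  have : SecondCountableTopology X := UniformSpace.secondCountable_of_separable X
  obtain ⟨D, hD⟩ := TopologicalSpace.exists_dense_seq C
  have hemb := isClosedEmbedding_restr hcl D hD
  have : PolishSpace (Nonexp C) := hemb.polishSpace
  infer_instance

end Pool.Agent.P55f1f5
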