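import Pool.Agent.P55f1f5.Defs

/-!
# Nonexpansive self-maps with the topology of pointwise convergence: basic facts
-/

namespace Pool.Agent.P55f1f5

open Filter Topology Set

variable {X : Type*} [NormedAddCommGroup X] {C : Set X}

theorem continuous_coe : Continuous (fun f : Nonexp C => (f.1 : C → C)) := continuous_induced_dom

theorem continuous_eval (x : C) : Continuous (fun f : Nonexp C => f.1 x) :=
  (continuous_apply x).comp continuous_coe

theorem tendsto_iff {ι : Type*} {l : Filter ι} {u : ι → Nonexp C} {f : Nonexp C} :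
    Tendsto u l (𝓝 f) ↔ ∀ x : C, Tendsto (fun i => (u i).1 x) l (𝓝 (f.1 x)) := by
  rw [nhds_induced, tendsto_comap_iff, tendsto_pi_nhds]
  rfl

/-- Joint continuity of evaluation. -/
theorem continuous_eval_comp {Z : Type*} [TopologicalSpace Z] {F : Z → Nonexp C} {u : Z → C}
    (hF : Continuous F) (hu : Continuous u) : Continuous (fun z => (F z).1 (u z)) := by
  rw [continuous_iff_continuousAt]
  intro z
  unfold ContinuousAt
  rw [tendsto_iff_dist_tendsto_zero]
  have h1 : Tendsto (fun w => dist (u w) (u z)) (𝓝 z) (𝓝 0) :=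
    tendsto_iff_dist_tendsto_zero.mp (hu.tendsto z)
  have h2 : Tendsto (fun w => dist ((F w).1 (u z)) ((F z).1 (u z))) (𝓝 z) (𝓝 0) :=
    tendsto_iff_dist_tendsto_zero.mp (((continuous_eval (u z)).comp hF).tendsto z)
  have h3 := h1.add h2
  rw [add_zero] at h3
  refine squeeze_zero (fun _ => dist_nonneg) (fun w => ?_) h3
  exact (dist_triangle _ ((F w).1 (u z)) _).trans (add_le_add ((F w).2 _ _) le_rfl)

theorem continuous_iter (n : ℕ) (x : C) : Continuous (fun f : Nonexp C => (f.1)^[n] x) := by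
  induction n with
  | zero => exact continuous_const
  | succ n ih =>
    simp only [Function.iterate_succ_apply']
    exact continuous_eval_comp continuous_id ih

theorem dist_iter_le (f : Nonexp C) (n : ℕ) (x y : C) :
    dist ((f.1)^[n] x) ((f.1)^[n] y) ≤ dist x y := by
  induction n with
  | zero => exact le_rfl
  | succ n ih =>
    simp only [Function.iterate_succ_apply']
    exact (f.2 _ _).trans ih

/-- maps whose orbit of `q` stays in the ball of radius `R` around `q` -/
def E (R : ℝ) (q : C) : Set (Nonexp C) := {f | ∀ n, dist ((f.1)^[n] q) q ≤ R}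

theorem isClosed_E (R : ℝ) (q : C) : IsClosed (E R q) := by
  have : E R q = ⋂ n, (fun f : Nonexp C => dist ((f.1)^[n] q) q) ⁻¹' Iic R := by
    ext f
    simp [E]
  rw [this]
  exact isClosed_iInter fun n =>
    isClosed_Iic.preimage ((continuous_iter n q).dist continuous_const)

theorem E_mono_base (R : ℝ) (q p : C) : E R q ⊆ E (R + 2 * dist p q) p := by
  intro f hf n
  calc dist ((f.1)^[n] p) p ≤ dist ((f.1)^[n] p) ((f.1)^[n] q) + dist ((f.1)^[n] q) q + dist q p :=
        dist_triangle4 _ _ _ _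
    _ ≤ dist p q + R + dist p q := by
        rw [dist_comm q p]
        gcongr
        · exact dist_iter_le f n p q
        · exact hf n
    _ = R + 2 * dist p q := by ring

variable [NormedSpace ℝ X]

theorem mem_InvSet_iff (hcl : IsClosed C) (hconv : Convex ℝ C) (q : C) (f : Nonexp C) :
    f ∈ InvSet C ↔ ∃ R : ℝ, f ∈ E R q := by
  constructor
  · rintro ⟨K, ⟨x, hx⟩, -, -, hb, hKC, hinv⟩
    obtain ⟨D, hD⟩ := Metric.isBounded_iff.mp hb
    let x' : C := ⟨x, hKC hx⟩
    have hmem : ∀ n, (((f.1)^[n] x' : C) : X) ∈ K := by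
      intro n
      induction n with
      | zero => exact hx
      | succ n ih =>
        rw [Function.iterate_succ_apply']
        exact hinv _ ih
    refine ⟨D + 2 * dist q x', E_mono_base D x' q ?_⟩
    intro n
    exact hD (hmem n) hx
  · rintro ⟨R, hf⟩
    refine ⟨{y | y ∈ C ∧ ∀ ε : ℝ, 0 < ε → ∀ᶠ n in atTop, dist (((f.1)^[n] q : C) : X) y ≤ R + ε},
      ⟨q, q.2, fun ε hε => Eventually.of_forall fun n => (hf n).trans (by linarith)⟩,
      ?_, ?_, ?_, fun y hy => hy.1, ?_⟩
    · apply isClosed_of_closure_subset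
      intro y hy
      refine ⟨hcl.closure_subset_iff.mpr (fun z hz => hz.1) hy, fun ε hε => ?_⟩
      obtain ⟨z, hz, hyz⟩ := Metric.mem_closure_iff.mp hy (ε / 2) (by positivity)
      filter_upwards [hz.2 (ε / 2) (by positivity)] with n hn
      calc dist (((f.1)^[n] q : C) : X) y ≤ dist (((f.1)^[n] q : C) : X) z + dist z y :=
            dist_triangle _ _ _
        _ ≤ (R + ε / 2) + ε / 2 := by
            rw [dist_comm z y]
            exact add_le_add hn hyz.le
        _ = R + ε := by ring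
    · intro y hy z hz a b ha hb hab
      refine ⟨hconv hy.1 hz.1 ha hb hab, fun ε hε => ?_⟩
      filter_upwards [hy.2 ε hε, hz.2 ε hε] with n hn1 hn2
      rw [dist_eq_norm] at hn1 hn2 ⊢
      have : (((f.1)^[n] q : C) : X) - (a • y + b • z) =
          a • ((((f.1)^[n] q : C) : X) - y) + b • ((((f.1)^[n] q : C) : X) - z) := by
        have h1 : (((f.1)^[n] q : C) : X) = (a + b) • (((f.1)^[n] q : C) : X) := by
          rw [hab, one_smul]
        conv_lhs => rw [h1]
        rw [add_smul, smul_sub, smul_sub]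
        abel
      rw [this]
      calc ‖a • ((((f.1)^[n] q : C) : X) - y) + b • ((((f.1)^[n] q : C) : X) - z)‖
          ≤ ‖a • ((((f.1)^[n] q : C) : X) - y)‖ + ‖b • ((((f.1)^[n] q : C) : X) - z)‖ :=
            norm_add_le _ _
        _ = a * ‖(((f.1)^[n] q : C) : X) - y‖ + b * ‖(((f.1)^[n] q : C) : X) - z‖ := by
            rw [norm_smul, norm_smul, Real.norm_of_nonneg ha, Real.norm_of_nonneg hb]
        _ ≤ a * (R + ε) + b * (R + ε) := by gcongr
        _ = R + ε := by rw [← add_mul, hab, one_mul]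
    · rw [Metric.isBounded_iff_subset_closedBall (q : X)]
      refine ⟨R + 1 + R, fun y hy => ?_⟩
      obtain ⟨n, hn⟩ := (hy.2 1 one_pos).exists
      rw [Metric.mem_closedBall]
      calc dist y (q : X) ≤ dist y (((f.1)^[n] q : C) : X) + dist (((f.1)^[n] q : C) : X) q :=
            dist_triangle _ _ _
        _ ≤ (R + 1) + R := by
            rw [dist_comm y]
            exact add_le_add hn (hf n)
    · intro x hx
      refine ⟨(f.1 x).2, fun ε hε => ?_⟩
      obtain ⟨N, hN⟩ := eventually_atTop.mp (hx.2 ε hε)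
      refine eventually_atTop.mpr ⟨N + 1, fun n hn => ?_⟩
      obtain ⟨m, rfl⟩ : ∃ m, n = m + 1 := ⟨n - 1, by omega⟩
      rw [Function.iterate_succ_apply']
      exact (f.2 _ _).trans (hN m (by omega))

/-- the map `x ↦ (1 - s) f x + s c` -/
def mix (hconv : Convex ℝ C) (f : Nonexp C) (c : C) (s : ℝ) (hs0 : 0 ≤ s) (hs1 : s ≤ 1) :
    Nonexp C :=
  ⟨fun x => ⟨(1 - s) • (f.1 x : X) + s • (c : X),
    hconv (f.1 x).2 c.2 (by linarith) hs0 (by ring)⟩, by
    intro x y
    have h : dist ((1 - s) • (f.1 x : X) + s • (c : X)) ((1 - s) • (f.1 y : X) + s • (c : X)) =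
        (1 - s) * dist (f.1 x) (f.1 y) := by
      rw [dist_add_right, dist_smul₀, Real.norm_of_nonneg (by linarith), Subtype.dist_eq]
    change dist ((1 - s) • (f.1 x : X) + s • (c : X)) ((1 - s) • (f.1 y : X) + s • (c : X)) ≤ _
    rw [h]
    calc (1 - s) * dist (f.1 x) (f.1 y) ≤ 1 * dist x y := by
          gcongr
          · linarith
          · exact f.2 x y
      _ = dist x y := one_mul _⟩

theorem mix_lip (hconv : Convex ℝ C) (f : Nonexp C) (c : C) (s : ℝ) (hs0 : 0 ≤ s) (hs1 : s ≤ 1)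
    (x y : C) : dist ((mix hconv f c s hs0 hs1).1 x) ((mix hconv f c s hs0 hs1).1 y) ≤
      (1 - s) * dist x y := by
  have h : dist ((1 - s) • (f.1 x : X) + s • (c : X)) ((1 - s) • (f.1 y : X) + s • (c : X)) =
      (1 - s) * dist (f.1 x) (f.1 y) := by
    rw [dist_add_right, dist_smul₀, Real.norm_of_nonneg (by linarith), Subtype.dist_eq]
  change dist ((1 - s) • (f.1 x : X) + s • (c : X)) ((1 - s) • (f.1 y : X) + s • (c : X)) ≤ _
  rw [h]
  exact mul_le_mul_of_nonneg_left (f.2 x y) (by linarith)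

/-- strict contractions are dense, in the form of a sequence -/
theorem exists_strict (hconv : Convex ℝ C) (f : Nonexp C) (c : C) {W : Set (Nonexp C)}
    (hW : W ∈ 𝓝 f) : ∃ g ∈ W, ∃ t : ℝ, 0 ≤ t ∧ t < 1 ∧ ∀ x y, dist (g.1 x) (g.1 y) ≤ t * dist x y := by
  have hn : ∀ n : ℕ, (0:ℝ) ≤ 1 / ((n:ℝ) + 1) ∧ 1 / ((n:ℝ) + 1) ≤ 1 := fun n =>
    ⟨by positivity, by rw [div_le_one (by positivity)]; linarith [Nat.cast_nonneg (α := ℝ) n]⟩
  have hT : Tendsto (fun n : ℕ => mix hconv f c (1 / ((n:ℝ) + 1)) (hn n).1 (hn n).2) atTop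
      (𝓝 f) := by
    rw [tendsto_iff]
    intro x
    rw [tendsto_subtype_rng]
    have h0 : Tendsto (fun n : ℕ => 1 / ((n:ℝ) + 1)) atTop (𝓝 0) :=
      tendsto_one_div_add_atTop_nhds_zero_nat
    have h1 : Tendsto (fun n : ℕ => (1 - 1 / ((n:ℝ) + 1)) • (f.1 x : X) +
        (1 / ((n:ℝ) + 1)) • (c : X)) atTop (𝓝 ((1 - 0 : ℝ) • (f.1 x : X) + (0:ℝ) • (c : X))) :=
      ((tendsto_const_nhds.sub h0).smul tendsto_const_nhds).add (h0.smul tendsto_const_nhds)
    rw [sub_zero, one_smul, zero_smul, add_zero] at h1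
    exact h1
  obtain ⟨n, hnW⟩ := (hT.eventually hW).exists
  refine ⟨_, hnW, 1 - 1 / ((n:ℝ) + 1), by linarith [(hn n).2], ?_, mix_lip hconv f c _ _ _⟩
  have : (0:ℝ) < 1 / ((n:ℝ) + 1) := by positivity
  linarith

omit [NormedSpace ℝ X] in
theorem exists_fixed [CompleteSpace X] (hcl : IsClosed C) (f : Nonexp C) (q : C) {t : ℝ}
    (ht0 : 0 ≤ t) (ht : t < 1) (hf : ∀ x y, dist (f.1 x) (f.1 y) ≤ t * dist x y) :
    ∃ p : C, f.1 p = p := by
  have : CompleteSpace C := hcl.completeSpace_coe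
  have : Nonempty C := ⟨q⟩
  have hc : ContractingWith ⟨t, ht0⟩ f.1 :=
    ⟨by exact_mod_cast ht, LipschitzWith.of_dist_le_mul hf⟩
  exact ⟨_, hc.fixedPoint_isFixedPt⟩


end Pool.Agent.P55f1f5
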