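import Mathlib

/-!
# The space of nonexpansive self-maps and the set of maps with an invariant bounded convex set
-/

namespace Pool.Agent.P55f1f5

open Filter Topology Set

/-- `N(C)`: the nonexpansive self-maps of `C`. -/
def Nonexp {X : Type*} [NormedAddCommGroup X] (C : Set X) : Type _ :=
  {f : C → C // ∀ x y : C, dist (f x) (f y) ≤ dist x y}

/-- The topology of pointwise convergence on `N(C)`. -/
instance {X : Type*} [NormedAddCommGroup X] (C : Set X) : TopologicalSpace (Nonexp C) :=
  TopologicalSpace.induced (fun f : Nonexp C => (f.1 : C → C)) inferInstance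

/-- `F(C)`: the maps `f` in `N(C)` for which there is a nonempty, closed, convex, bounded set
`K ⊆ C` with `f(K) ⊆ K`. -/
def InvSet {X : Type*} [NormedAddCommGroup X] [NormedSpace ℝ X] (C : Set X) : Set (Nonexp C) :=
  {f | ∃ K : Set X, K.Nonempty ∧ IsClosed K ∧ Convex ℝ K ∧ Bornology.IsBounded K ∧ K ⊆ C ∧
    ∀ x : C, (x : X) ∈ K → (f.1 x : X) ∈ K}

end Pool.Agent.P55f1f5
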