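import Pool.Agent.P55f1f5.Space

/-!
# Part 1: in the open set `V = {f : ‖f(0) - 4 e₀‖ < 1}` the maps with a large orbit are dense
-/

namespace Pool.Agent.P55f1f5

open Filter Topology Set

/-! ### the real functions -/

/-- the cut-off `φ(s)` with parameter `c` (the coordinate `q_0`) -/
noncomputable def ph (c s : ℝ) : ℝ := max 0 (min 1 (c - s))

theorem ph_nonneg (c s : ℝ) : 0 ≤ ph c s := le_max_left _ _

theorem ph_le_one (c s : ℝ) : ph c s ≤ 1 := max_le zero_le_one (min_le_left _ _)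

theorem ph_anti (c : ℝ) {s s' : ℝ} (h : s ≤ s') : ph c s' ≤ ph c s := by
  unfold ph
  gcongr

theorem ph_diff (c : ℝ) {s s' : ℝ} (h : s ≤ s') : ph c s - ph c s' ≤ s' - s := by
  unfold ph
  rcases max_cases 0 (min 1 (c - s)) with h1 | h1 <;> rcases max_cases 0 (min 1 (c - s')) with h2 | h2 <;>
    rcases min_cases 1 (c - s) with h3 | h3 <;> rcases min_cases 1 (c - s') with h4 | h4 <;>
    linarith

/-- new `e₀`-coordinate -/
noncomputable def al (c s r : ℝ) : ℝ := s + min r 1 * ph c s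

/-- new `e_N`-coordinate (without `ep`) -/
noncomputable def be (c s r : ℝ) : ℝ := max (r - 1) 0 + min r 1 * (1 - ph c s)

theorem al_add_be (c s r : ℝ) : al c s r + be c s r = s + r := by
  unfold al be
  have : min r 1 + max (r - 1) 0 = r := by
    rcases le_total r 1 with h | h
    · rw [min_eq_left h, max_eq_right (by linarith)]
      ring
    · rw [min_eq_right h, max_eq_left (by linarith)]
      ring
  linarith

theorem be_nonneg (c s : ℝ) {r : ℝ} (hr : 0 ≤ r) : 0 ≤ be c s r := by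
  unfold be
  have h1 := ph_le_one c s
  have h2 : 0 ≤ min r 1 := le_min hr zero_le_one
  have h3 : 0 ≤ max (r - 1) 0 := le_max_right _ _
  have h4 : 0 ≤ min r 1 * (1 - ph c s) := mul_nonneg h2 (by linarith)
  linarith

theorem be_le (c s : ℝ) {r : ℝ} (hr : 0 ≤ r) : be c s r ≤ r := by
  have h1 := al_add_be c s r
  have h2 : s ≤ al c s r := by
    unfold al
    have := mul_nonneg (le_min hr zero_le_one) (ph_nonneg c s)
    linarith
  linarith

theorem al_mono_s (c : ℝ) {s s' r : ℝ} (hr : 0 ≤ r) (h : s ≤ s') : al c s r ≤ al c s' r := by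
  unfold al
  have h1 := ph_diff c h
  have h2 := ph_anti c h
  have h3 : 0 ≤ min r 1 := le_min hr zero_le_one
  have h4 : min r 1 ≤ 1 := min_le_right _ _
  nlinarith [mul_le_mul_of_nonneg_left h1 h3, mul_nonneg (sub_nonneg.mpr h4) (sub_nonneg.mpr h)]

theorem be_mono_s (c : ℝ) {s s' r : ℝ} (hr : 0 ≤ r) (h : s ≤ s') : be c s r ≤ be c s' r := by
  unfold be
  have h2 := ph_anti c h
  have h3 : 0 ≤ min r 1 := le_min hr zero_le_one
  nlinarith [mul_le_mul_of_nonneg_left h2 h3]

theorem al_mono_r (c s : ℝ) {r r' : ℝ} (h : r ≤ r') : al c s r ≤ al c s r' := by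
  unfold al
  have h1 := ph_nonneg c s
  have h2 : min r 1 ≤ min r' 1 := min_le_min_right _ h
  nlinarith [mul_le_mul_of_nonneg_right h2 h1]

theorem be_mono_r (c s : ℝ) {r r' : ℝ} (h : r ≤ r') : be c s r ≤ be c s r' := by
  unfold be
  have h1 := ph_le_one c s
  have h2 : min r 1 ≤ min r' 1 := min_le_min_right _ h
  have h3 : max (r - 1) 0 ≤ max (r' - 1) 0 := max_le_max_right _ (by linarith)
  nlinarith [mul_le_mul_of_nonneg_right h2 (sub_nonneg.mpr h1)]

theorem step_s (c : ℝ) (s s' : ℝ) {r : ℝ} (hr : 0 ≤ r) :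
    |al c s r - al c s' r| + |be c s r - be c s' r| = |s - s'| := by
  have h1 := al_add_be c s r
  have h2 := al_add_be c s' r
  rcases le_total s s' with h | h
  · have h3 := al_mono_s c hr h
    have h4 := be_mono_s c hr h
    rw [abs_of_nonpos (by linarith), abs_of_nonpos (by linarith), abs_of_nonpos (by linarith)]
    linarith
  · have h3 := al_mono_s c hr h
    have h4 := be_mono_s c hr h
    rw [abs_of_nonneg (by linarith), abs_of_nonneg (by linarith), abs_of_nonneg (by linarith)]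
    linarith

theorem step_r (c s r r' : ℝ) :
    |al c s r - al c s r'| + |be c s r - be c s r'| = |r - r'| := by
  have h1 := al_add_be c s r
  have h2 := al_add_be c s r'
  rcases le_total r r' with h | h
  · have h3 := al_mono_r c s h
    have h4 := be_mono_r c s h
    rw [abs_of_nonpos (by linarith), abs_of_nonpos (by linarith), abs_of_nonpos (by linarith)]
    linarith
  · have h3 := al_mono_r c s h
    have h4 := be_mono_r c s h
    rw [abs_of_nonneg (by linarith), abs_of_nonneg (by linarith), abs_of_nonneg (by linarith)]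
    linarith

theorem step (c s s' r r' : ℝ) (hr' : 0 ≤ r') :
    |al c s r - al c s' r'| + |be c s r - be c s' r'| ≤ |s - s'| + |r - r'| := by
  have h1 := step_r c s r r'
  have h2 := step_s c s s' hr'
  have h3 := abs_sub_le (al c s r) (al c s r') (al c s' r')
  have h4 := abs_sub_le (be c s r) (be c s r') (be c s' r')
  linarith

/-! ### `ℓ¹` computations -/

theorem abs_apply_le (s : L1) (i : ℕ) : |s i| ≤ ‖s‖ := by
  have := norm_split s i
  have h2 := norm_nonneg (s - lp.single 1 i (s i))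
  linarith

theorem norm_single (i : ℕ) (c : ℝ) : ‖(lp.single 1 i c : L1)‖ = |c| := by
  rw [lp.norm_single (by norm_num), Real.norm_eq_abs]

theorem single_self (i : ℕ) (c : ℝ) : (lp.single 1 i c : L1) i = c := by
  rw [lp.single_apply]
  simp

theorem single_ne {i j : ℕ} (h : j ≠ i) (c : ℝ) : (lp.single 1 i c : L1) j = 0 := by
  rw [lp.single_apply, Pi.single_eq_of_ne h]

/-- the rest of the norm after removing the coordinates `0` and `n` -/
noncomputable def rest (n : ℕ) (s : L1) : ℝ :=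
  ‖s - lp.single 1 n (s n) - lp.single 1 0 (s 0)‖

theorem norm_two {n : ℕ} (hn : n ≠ 0) (s : L1) : ‖s‖ = |s n| + |s 0| + rest n s := by
  have h1 := norm_split s n
  have h2 := norm_split (s - lp.single 1 n (s n)) 0
  have h3 : (s - lp.single 1 n (s n) : L1) 0 = s 0 := by
    rw [lp.coeFn_sub, Pi.sub_apply, single_ne hn.symm, sub_zero]
  rw [h3] at h2
  unfold rest
  linarith

theorem rest_add_single {n : ℕ} (hn : n ≠ 0) (s : L1) (b c : ℝ) :
    rest n (s + lp.single 1 n b + lp.single 1 0 c) = rest n s := by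
  unfold rest
  congr 1
  have h1 : (s + lp.single 1 n b + lp.single 1 0 c : L1) n = s n + b := by
    rw [lp.coeFn_add, lp.coeFn_add, Pi.add_apply, Pi.add_apply, single_self, single_ne hn, add_zero]
  have h2 : (s + lp.single 1 n b + lp.single 1 0 c : L1) 0 = s 0 + c := by
    rw [lp.coeFn_add, lp.coeFn_add, Pi.add_apply, Pi.add_apply, single_self, single_ne hn.symm,
      add_zero]
  rw [h1, h2, lp.single_add, lp.single_add]
  abel

theorem norm_add_single {n : ℕ} (hn : n ≠ 0) (s : L1) (b c : ℝ) :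
    ‖s + lp.single 1 n b + lp.single 1 0 c‖ = |s n + b| + |s 0 + c| + rest n s := by
  rw [norm_two hn, rest_add_single hn]
  congr 2
  · rw [lp.coeFn_add, lp.coeFn_add, Pi.add_apply, Pi.add_apply, single_self, single_ne hn, add_zero]
  · rw [lp.coeFn_add, lp.coeFn_add, Pi.add_apply, Pi.add_apply, single_self, single_ne hn.symm,
      add_zero]

/-! ### the maps -/

theorem Y_mem {n : ℕ} (hn : n ≠ 0) {c : ℝ} (hc : 3 / 2 ≤ c) {x : SpX} (hx : x ∈ CC) :
    mk (dd x) (kk x) (ss x + lp.single 1 n (-(ss x n)) +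
      lp.single 1 0 (min (ss x n) 1 * ph c (ss x 0))) ∈ CC := by
  obtain ⟨x1, x2, x3, x4, x5, x6, x7⟩ := hx
  rw [mk_mem_iff]
  have hr := x6 n
  have h0 := x6 0
  have hm : 0 ≤ min (ss x n) 1 * ph c (ss x 0) := mul_nonneg (le_min hr zero_le_one) (ph_nonneg _ _)
  refine ⟨x2, x3, x4, x5, ?_, ?_⟩
  · intro i
    rw [lp.coeFn_add, lp.coeFn_add, Pi.add_apply, Pi.add_apply]
    by_cases h1 : i = n
    · subst h1
      rw [single_self, single_ne hn]
      linarith
    · by_cases h2 : i = 0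
      · subst h2
        rw [single_self, single_ne h1]
        linarith
      · rw [single_ne h1, single_ne h2]
        linarith [x6 i]
  · rw [norm_add_single hn]
    have h1 := norm_two hn (ss x)
    have h2 : 0 ≤ rest n (ss x) := norm_nonneg _
    rw [abs_of_nonneg hr, abs_of_nonneg h0] at h1
    rw [add_neg_cancel, abs_zero, zero_add, abs_of_nonneg (by linarith)]
    by_cases h3 : mu (kk x) ≤ ss x 0 + rest n (ss x)
    · linarith
    · push Not at h3
      have h4 : ss x 0 < 1 / 2 := by linarith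
      have h5 : ph c (ss x 0) = 1 := by
        unfold ph
        rw [min_eq_left (by linarith), max_eq_right zero_le_one]
      rw [h5, mul_one]
      rcases le_total (ss x n) 1 with h6 | h6
      · rw [min_eq_left h6]
        linarith
      · rw [min_eq_right h6]
        linarith

/-- the collapsed point -/
noncomputable def Ypt {n : ℕ} (hn : n ≠ 0) {c : ℝ} (hc : 3 / 2 ≤ c) (x : CC) : CC :=
  ⟨_, Y_mem hn hc x.2⟩

theorem add_mem {z : SpX} (hz : z ∈ CC) (n : ℕ) {b : ℝ} (hb : 0 ≤ b) :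
    mk (dd z) (kk z) (ss z + lp.single 1 n b) ∈ CC := by
  obtain ⟨x1, x2, x3, x4, x5, x6, x7⟩ := hz
  rw [mk_mem_iff]
  have hs : ∀ i, 0 ≤ (lp.single 1 n b : L1) i := by
    intro i
    by_cases h : i = n
    · subst h
      rwa [single_self]
    · rw [single_ne h]
  refine ⟨x2, x3, x4, x5, ?_, ?_⟩
  · intro i
    rw [lp.coeFn_add, Pi.add_apply]
    linarith [x6 i, hs i]
  · rw [norm_add_of_nonneg x6 hs]
    linarith [norm_nonneg (lp.single 1 n b : L1)]

/-- add `b` to the coordinate `n` -/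
noncomputable def addN (n : ℕ) (z : CC) {b : ℝ} (hb : 0 ≤ b) : CC :=
  ⟨_, add_mem z.2 n hb⟩

theorem dist_addN (n : ℕ) (z z' : CC) {b b' : ℝ} (hb : 0 ≤ b) (hb' : 0 ≤ b') :
    dist (addN n z hb) (addN n z' hb') ≤ dist z z' + |b - b'| := by
  rw [Subtype.dist_eq, Subtype.dist_eq]
  change dist (mk _ _ _) (mk _ _ _) ≤ _
  rw [dist_mk, dist_eq z.2 z'.2]
  have h1 : ss (z : SpX) + lp.single 1 n b - (ss (z' : SpX) + lp.single 1 n b') =
      (ss (z : SpX) - ss (z' : SpX)) + lp.single 1 n (b - b') := by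
    rw [lp.single_sub]
    abel
  rw [h1]
  have h2 := norm_add_le (ss (z : SpX) - ss (z' : SpX)) (lp.single 1 n (b - b') : L1)
  rw [norm_single] at h2
  linarith

theorem dist_Ypt {n : ℕ} (hn : n ≠ 0) {c : ℝ} (hc : 3 / 2 ≤ c) (x x' : CC) :
    dist (Ypt hn hc x) (Ypt hn hc x') +
      |be c (ss (x : SpX) 0) (ss (x : SpX) n) - be c (ss (x' : SpX) 0) (ss (x' : SpX) n)| ≤
      dist x x' := by
  rw [Subtype.dist_eq, Subtype.dist_eq]
  change dist (mk _ _ _) (mk _ _ _) + _ ≤ _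
  rw [dist_mk, dist_eq x.2 x'.2]
  have h1 : ss (x : SpX) + lp.single 1 n (-(ss (x : SpX) n)) +
      lp.single 1 0 (min (ss (x : SpX) n) 1 * ph c (ss (x : SpX) 0)) -
      (ss (x' : SpX) + lp.single 1 n (-(ss (x' : SpX) n)) +
      lp.single 1 0 (min (ss (x' : SpX) n) 1 * ph c (ss (x' : SpX) 0))) =
      (ss (x : SpX) - ss (x' : SpX)) + lp.single 1 n (-(ss (x : SpX) n) - -(ss (x' : SpX) n)) +
      lp.single 1 0 (min (ss (x : SpX) n) 1 * ph c (ss (x : SpX) 0) -
        min (ss (x' : SpX) n) 1 * ph c (ss (x' : SpX) 0)) := by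
    rw [lp.single_sub, lp.single_sub]
    abel
  rw [h1, norm_add_single hn, norm_two hn (ss (x : SpX) - ss (x' : SpX))]
  have h2 : (ss (x : SpX) - ss (x' : SpX) : L1) n = ss (x : SpX) n - ss (x' : SpX) n := rfl
  have h3 : (ss (x : SpX) - ss (x' : SpX) : L1) 0 = ss (x : SpX) 0 - ss (x' : SpX) 0 := rfl
  rw [h2, h3]
  have h4 := step c (ss (x : SpX) 0) (ss (x' : SpX) 0) (ss (x : SpX) n) (ss (x' : SpX) n)
    (x'.2.2.2.2.2.2.1 n)
  have h5 : ss (x : SpX) n - ss (x' : SpX) n + (-(ss (x : SpX) n) - -(ss (x' : SpX) n)) = 0 := by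
    ring
  have h6 : ss (x : SpX) 0 - ss (x' : SpX) 0 + (min (ss (x : SpX) n) 1 * ph c (ss (x : SpX) 0) -
        min (ss (x' : SpX) n) 1 * ph c (ss (x' : SpX) 0)) =
      al c (ss (x : SpX) 0) (ss (x : SpX) n) - al c (ss (x' : SpX) 0) (ss (x' : SpX) n) := by
    unfold al
    ring
  rw [h5, h6, abs_zero]
  linarith

/-- the perturbed map -/
noncomputable def hmap {n : ℕ} (hn : n ≠ 0) {c : ℝ} (hc : 3 / 2 ≤ c) {ep : ℝ} (hep : 0 ≤ ep)
    (f : Nonexp CC) : Nonexp CC :=
  ⟨fun x => addN n (f.1 (Ypt hn hc x)) (b := be c (ss (x : SpX) 0) (ss (x : SpX) n) + ep)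
    (add_nonneg (be_nonneg _ _ (x.2.2.2.2.2.2.1 n)) hep), by
    intro x x'
    refine (dist_addN n _ _ _ _).trans ?_
    have h1 := dist_Ypt hn hc x x'
    have h2 := f.2 (Ypt hn hc x) (Ypt hn hc x')
    have h3 : be c (ss (x : SpX) 0) (ss (x : SpX) n) + ep -
        (be c (ss (x' : SpX) 0) (ss (x' : SpX) n) + ep) =
        be c (ss (x : SpX) 0) (ss (x : SpX) n) - be c (ss (x' : SpX) 0) (ss (x' : SpX) n) := by
      ring
    rw [h3]
    linarith⟩

theorem T_zero : T 0 0 = 0 := by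
  unfold T
  simp

theorem dist_same (x : CC) (s : L1) (h : mk (dd (x : SpX)) (kk (x : SpX)) s ∈ CC) :
    dist (⟨_, h⟩ : CC) x = ‖s - ss (x : SpX)‖ := by
  have h1 : dist (mk (dd (x : SpX)) (kk (x : SpX)) s) (x : SpX) =
      dist (mk (dd (x : SpX)) (kk (x : SpX)) s) (mk (dd (x : SpX)) (kk (x : SpX)) (ss (x : SpX))) := by
    rw [← eq_mk x.2]
  rw [Subtype.dist_eq]
  change dist (mk (dd (x : SpX)) (kk (x : SpX)) s) (x : SpX) = _
  rw [h1, dist_mk, sub_self, sub_self, norm_zero, T_zero, zero_add]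

theorem dist_addN_self (n : ℕ) (z : CC) {b : ℝ} (hb : 0 ≤ b) : dist (addN n z hb) z = b := by
  unfold addN
  rw [dist_same, add_sub_cancel_left, norm_single, abs_of_nonneg hb]

theorem dist_Ypt_self {n : ℕ} (hn : n ≠ 0) {c : ℝ} (hc : 3 / 2 ≤ c) (x : CC) :
    dist (Ypt hn hc x) x ≤ 2 * ss (x : SpX) n := by
  have hr : 0 ≤ ss (x : SpX) n := x.2.2.2.2.2.2.1 n
  unfold Ypt
  rw [dist_same]
  have h1 : ss (x : SpX) + lp.single 1 n (-(ss (x : SpX) n)) +
      lp.single 1 0 (min (ss (x : SpX) n) 1 * ph c (ss (x : SpX) 0)) - ss (x : SpX) =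
      lp.single 1 n (-(ss (x : SpX) n)) +
      lp.single 1 0 (min (ss (x : SpX) n) 1 * ph c (ss (x : SpX) 0)) := by abel
  rw [h1]
  refine (norm_add_le _ _).trans ?_
  rw [norm_single, norm_single, abs_neg, abs_of_nonneg hr, abs_of_nonneg (mul_nonneg
    (le_min hr zero_le_one) (ph_nonneg _ _))]
  have h2 : min (ss (x : SpX) n) 1 * ph c (ss (x : SpX) 0) ≤ ss (x : SpX) n * 1 :=
    mul_le_mul (min_le_left _ _) (ph_le_one _ _) (ph_nonneg _ _) hr
  linarith

theorem hmap_close {n : ℕ} (hn : n ≠ 0) {c : ℝ} (hc : 3 / 2 ≤ c) {ep : ℝ} (hep : 0 ≤ ep)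
    (f : Nonexp CC) (x : CC) :
    dist ((hmap hn hc hep f).1 x) (f.1 x) ≤ 3 * ss (x : SpX) n + ep := by
  have hr : 0 ≤ ss (x : SpX) n := x.2.2.2.2.2.2.1 n
  have hb : 0 ≤ be c (ss (x : SpX) 0) (ss (x : SpX) n) + ep := add_nonneg (be_nonneg _ _ hr) hep
  have h1 : dist ((hmap hn hc hep f).1 x) (f.1 (Ypt hn hc x)) =
      be c (ss (x : SpX) 0) (ss (x : SpX) n) + ep := dist_addN_self n (f.1 (Ypt hn hc x)) hb
  have h2 := f.2 (Ypt hn hc x) x
  have h3 := dist_Ypt_self hn hc x
  have h4 := be_le c (ss (x : SpX) 0) hr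
  have h5 := dist_triangle ((hmap hn hc hep f).1 x) (f.1 (Ypt hn hc x)) (f.1 x)
  linarith

/-- for a far point `z1 = q + R e_n` over the fixed point, `h z1` is close to `q + (R+ep) e_n` -/
theorem hmap_far {n : ℕ} (hn : n ≠ 0) (f : Nonexp CC) (q : CC) (hq : f.1 q = q)
    (hc : 3 / 2 ≤ ss (q : SpX) 0) {ep : ℝ} (hep : 0 ≤ ep) {R : ℝ} (hR : 0 ≤ R) :
    dist ((hmap hn hc hep f).1 (addN n q hR)) (addN n q (add_nonneg hR hep)) ≤
      3 * ss (q : SpX) n := by
  have hr : 0 ≤ ss (q : SpX) n := q.2.2.2.2.2.2.1 n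
  have e0 : ss ((addN n q hR : CC) : SpX) 0 = ss (q : SpX) 0 := by
    change (ss (q : SpX) + lp.single 1 n R : L1) 0 = _
    rw [lp.coeFn_add, Pi.add_apply, single_ne hn.symm, add_zero]
  have en : ss ((addN n q hR : CC) : SpX) n = ss (q : SpX) n + R := by
    change (ss (q : SpX) + lp.single 1 n R : L1) n = _
    rw [lp.coeFn_add, Pi.add_apply, single_self]
  have hph : ph (ss (q : SpX) 0) (ss (q : SpX) 0) = 0 := by
    unfold ph
    rw [sub_self, min_eq_right zero_le_one, max_self]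
  have hbe : be (ss (q : SpX) 0) (ss ((addN n q hR : CC) : SpX) 0) (ss ((addN n q hR : CC) : SpX) n) =
      ss (q : SpX) n + R := by
    have h1 := al_add_be (ss (q : SpX) 0) (ss (q : SpX) 0) (ss (q : SpX) n + R)
    have h2 : al (ss (q : SpX) 0) (ss (q : SpX) 0) (ss (q : SpX) n + R) = ss (q : SpX) 0 := by
      unfold al
      rw [hph, mul_zero, add_zero]
    rw [e0, en]
    linarith
  have hY : dist (Ypt hn hc (addN n q hR)) q ≤ ss (q : SpX) n := by
    have h1 : ((Ypt hn hc (addN n q hR) : CC) : SpX) =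
        mk (dd (q : SpX)) (kk (q : SpX)) (ss (q : SpX) + lp.single 1 n (-(ss (q : SpX) n))) := by
      change mk (dd (q : SpX)) (kk (q : SpX)) (ss ((addN n q hR : CC) : SpX) +
        lp.single 1 n (-(ss ((addN n q hR : CC) : SpX) n)) +
        lp.single 1 0 (min (ss ((addN n q hR : CC) : SpX) n) 1 *
          ph (ss (q : SpX) 0) (ss ((addN n q hR : CC) : SpX) 0))) = _
      rw [e0, hph, mul_zero, lp.single_zero, add_zero, en]
      congr 1
      change ss (q : SpX) + lp.single 1 n R + _ = _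
      have h2 : (lp.single 1 n (-(ss (q : SpX) n + R)) : L1) =
          lp.single 1 n (-(ss (q : SpX) n)) - lp.single 1 n R := by
        rw [← lp.single_sub]
        congr 1
        ring
      rw [h2]
      abel
    rw [Subtype.dist_eq, h1]
    conv_lhs => rw [eq_mk q.2]
    rw [dist_mk]
    simp only [dd_mk, kk_mk, ss_mk]
    rw [sub_self, sub_self, norm_zero, T_zero, zero_add, add_sub_cancel_left, norm_single, abs_neg,
      abs_of_nonneg hr]
  have h1 : dist ((hmap hn hc hep f).1 (addN n q hR)) (addN n q (add_nonneg hR hep)) ≤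
      dist (f.1 (Ypt hn hc (addN n q hR))) q + |be (ss (q : SpX) 0)
        (ss ((addN n q hR : CC) : SpX) 0) (ss ((addN n q hR : CC) : SpX) n) + ep - (R + ep)| :=
    dist_addN n (f.1 (Ypt hn hc (addN n q hR))) q
      (add_nonneg (be_nonneg _ _ ((addN n q hR).2.2.2.2.2.2.1 n)) hep) (add_nonneg hR hep)
  rw [hbe] at h1
  have h2 := f.2 (Ypt hn hc (addN n q hR)) q
  rw [hq] at h2
  have h3 : |ss (q : SpX) n + R + ep - (R + ep)| = ss (q : SpX) n := by
    rw [show ss (q : SpX) n + R + ep - (R + ep) = ss (q : SpX) n by ring, abs_of_nonneg hr]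
  rw [h3] at h1
  linarith

/-- if the coordinate `n` of `x` is at most the one of `z1`, moving `z1` by `ep` increases the
distance by `ep` -/
theorem dist_push (n : ℕ) (q x : CC) {R ep : ℝ} (hR : 0 ≤ R) (hep : 0 ≤ ep)
    (hx : ss (x : SpX) n ≤ ss (q : SpX) n + R) :
    dist x (addN n q (add_nonneg hR hep)) = dist x (addN n q hR) + ep := by
  rw [Subtype.dist_eq, Subtype.dist_eq]
  change dist _ (mk _ _ _) = dist _ (mk _ _ _) + ep
  rw [dist_mk_right x.2, dist_mk_right x.2]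
  have h1 := norm_split (ss (x : SpX) - (ss (q : SpX) + lp.single 1 n (R + ep))) n
  have h2 := norm_split (ss (x : SpX) - (ss (q : SpX) + lp.single 1 n R)) n
  have h3 : (ss (x : SpX) - (ss (q : SpX) + lp.single 1 n (R + ep)) : L1) n =
      ss (x : SpX) n - (ss (q : SpX) n + (R + ep)) := by
    rw [lp.coeFn_sub, Pi.sub_apply, lp.coeFn_add, Pi.add_apply, single_self]
  have h4 : (ss (x : SpX) - (ss (q : SpX) + lp.single 1 n R) : L1) n =
      ss (x : SpX) n - (ss (q : SpX) n + R) := by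
    rw [lp.coeFn_sub, Pi.sub_apply, lp.coeFn_add, Pi.add_apply, single_self]
  have h5 : ss (x : SpX) - (ss (q : SpX) + lp.single 1 n (R + ep)) -
      lp.single 1 n (ss (x : SpX) n - (ss (q : SpX) n + (R + ep))) =
      ss (x : SpX) - (ss (q : SpX) + lp.single 1 n R) -
      lp.single 1 n (ss (x : SpX) n - (ss (q : SpX) n + R)) := by
    have h6 : (lp.single 1 n (ss (x : SpX) n - (ss (q : SpX) n + (R + ep))) : L1) =
        lp.single 1 n (ss (x : SpX) n - (ss (q : SpX) n + R)) - lp.single 1 n ep := by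
      rw [← lp.single_sub]
      congr 1
      ring
    have h7 : (lp.single 1 n (R + ep) : L1) = lp.single 1 n R + lp.single 1 n ep := by
      rw [← lp.single_add]
    rw [h6, h7]
    abel
  rw [h3, h5] at h1
  rw [h4] at h2
  rw [h1, h2, abs_of_nonpos (by linarith), abs_of_nonpos (by linarith)]
  ring

/-- the base point -/
noncomputable def zc : CC := ⟨mk 0 0 0, zero_mem⟩

theorem dist_zc (x : CC) : dist x zc = T (dd (x : SpX)) ‖kk (x : SpX)‖ + ‖ss (x : SpX)‖ := by
  rw [Subtype.dist_eq]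
  change dist _ (mk 0 0 0) = _
  rw [dist_mk_right x.2, sub_zero, sub_zero, sub_zero]

theorem T_nonneg (a : ℝ) (b : ℝ) : 0 ≤ T a b := le_max_of_le_left (abs_nonneg _)

/-- fixed points of maps in `V` have a large coordinate `0` -/
theorem centre (f : Nonexp CC) (hf : dist ((f.1 zc : CC) : SpX) (mk 0 0 (lp.single 1 0 4)) < 1)
    (q : CC) (hq : f.1 q = q) : 3 / 2 ≤ ss (q : SpX) 0 := by
  have h1 : dist (q : SpX) (mk 0 0 (lp.single 1 0 4)) ≤ dist q zc + 1 := by
    have h2 := f.2 q zc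
    rw [hq, Subtype.dist_eq] at h2
    have h3 := dist_triangle (q : SpX) ((f.1 zc : CC) : SpX) (mk 0 0 (lp.single 1 0 4))
    linarith
  rw [dist_mk_right q.2, dist_zc, sub_zero, sub_zero] at h1
  have h2 := norm_split (ss (q : SpX)) 0
  have h3 := norm_split (ss (q : SpX) - lp.single 1 0 4) 0
  have h4 : (ss (q : SpX) - lp.single 1 0 4 : L1) 0 = ss (q : SpX) 0 - 4 := by
    rw [lp.coeFn_sub, Pi.sub_apply, single_self]
  have h5 : ss (q : SpX) - lp.single 1 0 4 - lp.single 1 0 (ss (q : SpX) 0 - 4) =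
      ss (q : SpX) - lp.single 1 0 (ss (q : SpX) 0) := by
    rw [lp.single_sub]
    abel
  rw [h4, h5] at h3
  have h6 : 0 ≤ ss (q : SpX) 0 := q.2.2.2.2.2.2.1 0
  rw [abs_of_nonneg h6] at h2
  have h7 := neg_abs_le (ss (q : SpX) 0 - 4)
  linarith

/-- the perturbed map has a large orbit -/
theorem hmap_not_mem {n : ℕ} (hn : n ≠ 0) (f : Nonexp CC) (q : CC) (hq : f.1 q = q)
    (hc : 3 / 2 ≤ ss (q : SpX) 0) {ep : ℝ} (hep : 0 < ep) (hqn : 3 * ss (q : SpX) n ≤ ep / 2)
    (m : ℝ) : hmap hn hc hep.le f ∉ E m zc := by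
  intro hE
  set h := hmap hn hc hep.le f with hh
  obtain ⟨R, hR⟩ : ∃ R : ℝ, R = |m| := ⟨_, rfl⟩
  have hR0 : 0 ≤ R := hR ▸ abs_nonneg m
  have hqn0 : 0 ≤ ss (q : SpX) n := q.2.2.2.2.2.2.1 n
  have hcoord : ∀ k, ss (((h.1)^[k] zc : CC) : SpX) n ≤ ss (q : SpX) n + R := by
    intro k
    have h1 := hE k
    rw [dist_zc] at h1
    have h2 := abs_apply_le (ss (((h.1)^[k] zc : CC) : SpX)) n
    have h3 := le_abs_self (ss (((h.1)^[k] zc : CC) : SpX) n)
    have h4 := T_nonneg (dd (((h.1)^[k] zc : CC) : SpX)) ‖kk (((h.1)^[k] zc : CC) : SpX)‖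
    have h5 : m ≤ R := hR ▸ le_abs_self m
    linarith
  have hstep : ∀ k : ℕ, dist ((h.1)^[k] zc) (addN n q (add_nonneg hR0 hep.le)) ≤
      dist zc (addN n q (add_nonneg hR0 hep.le)) - k * (ep / 2) := by
    intro k
    induction k with
    | zero => simp
    | succ k ih =>
      rw [Function.iterate_succ_apply']
      have h1 := h.2 ((h.1)^[k] zc) (addN n q hR0)
      have h2 := hmap_far hn f q hq hc hep.le hR0
      have h3 := dist_push n q ((h.1)^[k] zc) hR0 hep.le (hcoord k)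
      have h4 := dist_triangle (h.1 ((h.1)^[k] zc)) (h.1 (addN n q hR0))
        (addN n q (add_nonneg hR0 hep.le))
      push_cast
      linarith
  obtain ⟨k, hk⟩ := exists_nat_gt (dist zc (addN n q (add_nonneg hR0 hep.le)) / (ep / 2))
  have h1 := hstep k
  rw [div_lt_iff₀ (by positivity)] at hk
  have h2 : 0 ≤ dist ((h.1)^[k] zc) (addN n q (add_nonneg hR0 hep.le)) := dist_nonneg
  linarith

theorem tendsto_coord (s : L1) : Tendsto (fun n => s n) atTop (𝓝 0) := by
  have h1 := (summable_L1 s).tendsto_atTop_zero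
  exact (tendsto_zero_iff_abs_tendsto_zero _).mpr h1

/-- PART ONE: near every map of `V` there are maps whose orbit of `zc` leaves the ball of radius
`m`. -/
theorem partOne (m : ℝ) (f0 : Nonexp CC)
    (hV : dist ((f0.1 zc : CC) : SpX) (mk 0 0 (lp.single 1 0 4)) < 1) (W : Set (Nonexp CC))
    (hW : W ∈ 𝓝 f0) : ∃ h ∈ W, h ∉ E m zc := by
  have hVo : {f : Nonexp CC | dist ((f.1 zc : CC) : SpX) (mk 0 0 (lp.single 1 0 4)) < 1} ∈ 𝓝 f0 := by
    have hc : Continuous fun f : Nonexp CC =>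
        dist ((f.1 zc : CC) : SpX) (mk 0 0 (lp.single 1 0 4)) :=
      (continuous_subtype_val.comp (continuous_eval zc)).dist continuous_const
    exact (isOpen_lt hc continuous_const).mem_nhds hV
  obtain ⟨W', hW'W, hW'o, hf0⟩ := mem_nhds_iff.mp (inter_mem hW hVo)
  obtain ⟨f, hfW, t, ht0, ht, hft⟩ := exists_strict convex_CC f0 zc (hW'o.mem_nhds hf0)
  obtain ⟨q, hq⟩ := exists_fixed isClosed_CC f zc ht0 ht hft
  have hc := centre f (hW'W hfW).2 q hq
  have hep : ∀ j : ℕ, (0:ℝ) < 1 / ((j:ℝ) + 1) := fun j => by positivity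
  have hex : ∀ j : ℕ, ∃ n : ℕ, j + 1 ≤ n ∧ 3 * ss (q : SpX) n ≤ 1 / ((j:ℝ) + 1) / 2 := by
    intro j
    have h1 : ∀ᶠ n in atTop, ss (q : SpX) n < 1 / ((j:ℝ) + 1) / 6 :=
      (tendsto_coord (ss (q : SpX))).eventually (gt_mem_nhds (by have := hep j; positivity))
    obtain ⟨n, hn1, hn2⟩ := (h1.and (eventually_ge_atTop (j + 1))).exists
    exact ⟨n, hn2, by linarith⟩
  choose n hn1 hn2 using hex
  have hn0 : ∀ j, n j ≠ 0 := fun j => by have := hn1 j; omega
  have hlim : Tendsto (fun j => hmap (hn0 j) hc (hep j).le f) atTop (𝓝 f) := by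
    rw [tendsto_iff]
    intro x
    rw [tendsto_iff_dist_tendsto_zero]
    have h1 : Tendsto n atTop atTop :=
      tendsto_atTop_mono (fun j => (Nat.le_succ j).trans (hn1 j)) tendsto_id
    have h2 : Tendsto (fun j => 3 * ss (x : SpX) (n j) + 1 / ((j:ℝ) + 1)) atTop (𝓝 (3 * 0 + 0)) :=
      (((tendsto_coord (ss (x : SpX))).comp h1).const_mul 3).add
        tendsto_one_div_add_atTop_nhds_zero_nat
    rw [mul_zero, add_zero] at h2
    exact squeeze_zero (fun _ => dist_nonneg) (fun j => hmap_close (hn0 j) hc (hep j).le f x) h2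
  obtain ⟨j, hj⟩ := (hlim.eventually (hW'o.mem_nhds hfW)).exists
  exact ⟨_, (hW'W hj).1, hmap_not_mem (hn0 j) f q hq hc (hep j) (hn2 j) m⟩

end Pool.Agent.P55f1f5
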