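import Pool.Agent.P55f1f5.Space

/-!
# The quadratic map of the counterexample and the nonexpansive map `fU`
-/

namespace Pool.Agent.P55f1f5

open Filter Topology Set

/-- one component of the quadratic map -/
noncomputable def Fr (x y z : ℝ) : ℝ :=
  3 / 4 * (x - (x + y + z) / 3) + 1 / 16 * ((x - (x + y + z) / 3) ^ 2 -
    ((x - (x + y + z) / 3) ^ 2 + (y - (x + y + z) / 3) ^ 2 + (z - (x + y + z) / 3) ^ 2) / 3) +
    1 / 4 * ((x + y + z) / 3) * (x - (x + y + z) / 3)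

theorem Fr_diff (x y z x' y' z' m a b c : ℝ) (hm : m = ((x + y + z) / 3 + (x' + y' + z') / 3) / 2)
    (ha : a = (x + x') / 2 - m) (hb : b = (y + y') / 2 - m) (hc : c = (z + z') / 2 - m) :
    Fr x y z - Fr x' y' z' = (1 / 2 + m / 6 + a / 8) * (x - x') -
      (1 / 4 + m / 12 - (a - b) / 24) * (y - y') - (1 / 4 + m / 12 - (a - c) / 24) * (z - z') := by
  subst ha hb hc hm
  unfold Fr
  ring

/-- the condition on the `ℝ^3` coordinate -/
def K1 (k : Fin 3 → ℝ) : Prop := 0 ≤ mu k ∧ mu k ≤ 1 / 2 ∧ ∀ i, |k i - mu k| ≤ 2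

theorem Fr_lip {x y z x' y' z' N : ℝ} (hm0 : 0 ≤ (x + y + z) / 3) (hm0' : 0 ≤ (x' + y' + z') / 3)
    (hx : |x - (x + y + z) / 3| ≤ 2) (hy : |y - (x + y + z) / 3| ≤ 2)
    (hz : |z - (x + y + z) / 3| ≤ 2)
    (hx' : |x' - (x' + y' + z') / 3| ≤ 2) (hy' : |y' - (x' + y' + z') / 3| ≤ 2)
    (hz' : |z' - (x' + y' + z') / 3| ≤ 2)
    (h1 : |x - x'| ≤ N) (h2 : |y - y'| ≤ N) (h3 : |z - z'| ≤ N) :
    |Fr x y z - Fr x' y' z'| ≤
      (1 + ((x + y + z) / 3 + (x' + y' + z') / 3) / 2 / 3) * N := by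
  rw [Fr_diff x y z x' y' z' _ _ _ _ rfl rfl rfl rfl]
  rw [abs_le] at hx hy hz hx' hy' hz' h1 h2 h3
  set m : ℝ := ((x + y + z) / 3 + (x' + y' + z') / 3) / 2 with hm
  set a : ℝ := (x + x') / 2 - m with ha
  set b : ℝ := (y + y') / 2 - m with hb
  set c : ℝ := (z + z') / 2 - m with hc
  have hm1 : 0 ≤ m := by linarith
  have a1 : -2 ≤ a := by linarith
  have a2 : a ≤ 2 := by linarith
  have b1 : -2 ≤ b := by linarith
  have b2 : b ≤ 2 := by linarith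
  have c1 : -2 ≤ c := by linarith
  have c2 : c ≤ 2 := by linarith
  have hA : 0 ≤ 1 / 2 + m / 6 + a / 8 := by linarith
  have hB : 0 ≤ 1 / 4 + m / 12 - (a - b) / 24 := by linarith
  have hC : 0 ≤ 1 / 4 + m / 12 - (a - c) / 24 := by linarith
  have hsum : (1 / 2 + m / 6 + a / 8) + (1 / 4 + m / 12 - (a - b) / 24) +
      (1 / 4 + m / 12 - (a - c) / 24) = 1 + m / 3 := by
    have : a + b + c = 0 := by
      rw [ha, hb, hc, hm]
      ring
    linarith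
  rw [← hsum]
  rw [abs_le]
  constructor
  · nlinarith [mul_le_mul_of_nonneg_left h1.1 hA, mul_le_mul_of_nonneg_left h2.2 hB,
      mul_le_mul_of_nonneg_left h3.2 hC]
  · nlinarith [mul_le_mul_of_nonneg_left h1.2 hA, mul_le_mul_of_nonneg_left h2.1 hB,
      mul_le_mul_of_nonneg_left h3.1 hC]

theorem Fr_bound {x y z : ℝ} (hm0 : 0 ≤ (x + y + z) / 3) (hm1 : (x + y + z) / 3 ≤ 1 / 2)
    (hx : |x - (x + y + z) / 3| ≤ 2) (hy : |y - (x + y + z) / 3| ≤ 2)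
    (hz : |z - (x + y + z) / 3| ≤ 2) : |Fr x y z| ≤ 2 := by
  unfold Fr
  set m : ℝ := (x + y + z) / 3 with hm
  set a : ℝ := x - m with ha
  set b : ℝ := y - m with hb
  set c : ℝ := z - m with hc
  have ha2 : a ^ 2 ≤ 4 := by nlinarith [abs_le.mp hx]
  have hb2 : b ^ 2 ≤ 4 := by nlinarith [abs_le.mp hy]
  have hc2 : c ^ 2 ≤ 4 := by nlinarith [abs_le.mp hz]
  have ha0 := sq_nonneg a
  have hb0 := sq_nonneg b
  have hc0 := sq_nonneg c
  have hma : |m * a| ≤ 1 := by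
    rw [abs_mul, abs_of_nonneg hm0]
    nlinarith [abs_nonneg a]
  rw [abs_le] at hx hma ⊢
  constructor <;> nlinarith

/-- the quadratic map -/
noncomputable def Ft (k : Fin 3 → ℝ) : Fin 3 → ℝ :=
  ![Fr (k 0) (k 1) (k 2), Fr (k 1) (k 2) (k 0), Fr (k 2) (k 0) (k 1)]

theorem mu_Ft (k : Fin 3 → ℝ) : mu (Ft k) = 0 := by
  simp only [mu, Ft, Fr, Matrix.cons_val_zero, Matrix.cons_val_one, Matrix.cons_val]
  ring

theorem perm1 (x y z : ℝ) : (y + z + x) / 3 = (x + y + z) / 3 := by ring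
theorem perm2 (x y z : ℝ) : (z + x + y) / 3 = (x + y + z) / 3 := by ring

theorem Ft_lip {k k' : Fin 3 → ℝ} (hk : K1 k) (hk' : K1 k') :
    ‖Ft k - Ft k'‖ ≤ (1 + (mu k + mu k') / 2 / 3) * ‖k - k'‖ := by
  obtain ⟨h0, h1, h2⟩ := hk
  obtain ⟨h0', h1', h2'⟩ := hk'
  have hN : ∀ i, |k i - k' i| ≤ ‖k - k'‖ := fun i => norm_le_pi_norm (k - k') i
  have hpos : 0 ≤ (1 + (mu k + mu k') / 2 / 3) * ‖k - k'‖ := by positivity
  unfold mu at *
  rw [pi_norm_le_iff_of_nonneg hpos]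
  intro i
  rw [Pi.sub_apply, Real.norm_eq_abs]
  fin_cases i
  · exact Fr_lip h0 h0' (h2 0) (h2 1) (h2 2) (h2' 0) (h2' 1) (h2' 2) (hN 0) (hN 1) (hN 2)
  · have := Fr_lip (x := k 1) (y := k 2) (z := k 0) (x' := k' 1) (y' := k' 2) (z' := k' 0)
      (N := ‖k - k'‖)
    rw [perm1 (k 0) (k 1) (k 2), perm1 (k' 0) (k' 1) (k' 2)] at this
    exact this h0 h0' (h2 1) (h2 2) (h2 0) (h2' 1) (h2' 2) (h2' 0) (hN 1) (hN 2) (hN 0)
  · have := Fr_lip (x := k 2) (y := k 0) (z := k 1) (x' := k' 2) (y' := k' 0) (z' := k' 1)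
      (N := ‖k - k'‖)
    rw [perm2 (k 0) (k 1) (k 2), perm2 (k' 0) (k' 1) (k' 2)] at this
    exact this h0 h0' (h2 2) (h2 0) (h2 1) (h2' 2) (h2' 0) (h2' 1) (hN 2) (hN 0) (hN 1)

theorem Ft_bound {k : Fin 3 → ℝ} (hk : K1 k) (i : Fin 3) : |Ft k i| ≤ 2 := by
  obtain ⟨h0, h1, h2⟩ := hk
  unfold mu at *
  fin_cases i
  · exact Fr_bound h0 h1 (h2 0) (h2 1) (h2 2)
  · have := Fr_bound (x := k 1) (y := k 2) (z := k 0)
    rw [perm1 (k 0) (k 1) (k 2)] at this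
    exact this h0 h1 (h2 1) (h2 2) (h2 0)
  · have := Fr_bound (x := k 2) (y := k 0) (z := k 1)
    rw [perm2 (k 0) (k 1) (k 2)] at this
    exact this h0 h1 (h2 2) (h2 0) (h2 1)

theorem Ft_norm {k : Fin 3 → ℝ} (hk : K1 k) : ‖Ft k‖ ≤ 2 := by
  rw [pi_norm_le_iff_of_nonneg (by norm_num)]
  exact Ft_bound hk

/-- the cut-off factor -/
noncomputable def cf (t : ℝ) : ℝ := max 0 (1 - t / 2)

theorem cf_nonneg (t : ℝ) : 0 ≤ cf t := le_max_left _ _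

theorem cf_le_one {t : ℝ} (ht : 0 ≤ t) : cf t ≤ 1 := max_le zero_le_one (by linarith)

theorem cf_lip (t t' : ℝ) : |cf t - cf t'| ≤ |t - t'| / 2 := by
  unfold cf
  have := abs_max_sub_max_le_max (0:ℝ) (1 - t / 2) 0 (1 - t' / 2)
  refine this.trans ?_
  rw [sub_self, abs_zero, max_le_iff]
  refine ⟨by positivity, ?_⟩
  have h : 1 - t / 2 - (1 - t' / 2) = -((t - t') / 2) := by ring
  rw [h, abs_neg, abs_div, abs_of_pos (show (0:ℝ) < 2 by norm_num)]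

theorem cf_mul {t m : ℝ} (hm : 0 ≤ m) (hmt : m ≤ t) : cf t * (1 + m / 3) ≤ 1 := by
  unfold cf
  rcases le_total 0 (1 - t / 2) with h | h
  · rw [max_eq_right h]
    nlinarith [mul_le_mul_of_nonneg_left hmt h, mul_nonneg hm (hm.trans hmt), hm.trans hmt]
  · rw [max_eq_left h]
    linarith

theorem Fp_lip {k k' : Fin 3 → ℝ} (hk : K1 k) (hk' : K1 k') {t t' : ℝ} (ht : mu k ≤ t)
    (ht' : mu k' ≤ t') : ‖cf t • Ft k - cf t' • Ft k'‖ ≤ ‖k - k'‖ + |t - t'| := by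
  wlog h : t ≤ t' generalizing k k' t t' with H
  · have := H hk' hk ht' ht (le_of_not_ge h)
    rw [norm_sub_rev, norm_sub_rev k k', abs_sub_comm]
    exact this
  have h1 : cf t • Ft k - cf t' • Ft k' = (cf t - cf t') • Ft k + cf t' • (Ft k - Ft k') := by
    rw [sub_smul, smul_sub]
    abel
  rw [h1]
  refine (norm_add_le _ _).trans ?_
  rw [norm_smul, norm_smul, Real.norm_eq_abs, Real.norm_of_nonneg (cf_nonneg t'), add_comm]
  have e1 : |cf t - cf t'| * ‖Ft k‖ ≤ |t - t'| := by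
    calc |cf t - cf t'| * ‖Ft k‖ ≤ (|t - t'| / 2) * 2 :=
          mul_le_mul (cf_lip t t') (Ft_norm hk) (norm_nonneg _) (by positivity)
      _ = |t - t'| := by ring
  have e2 : cf t' * ‖Ft k - Ft k'‖ ≤ ‖k - k'‖ := by
    calc cf t' * ‖Ft k - Ft k'‖ ≤ cf t' * ((1 + (mu k + mu k') / 2 / 3) * ‖k - k'‖) :=
          mul_le_mul_of_nonneg_left (Ft_lip hk hk') (cf_nonneg t')
      _ = (cf t' * (1 + (mu k + mu k') / 2 / 3)) * ‖k - k'‖ := by ring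
      _ ≤ 1 * ‖k - k'‖ := by
          refine mul_le_mul_of_nonneg_right (cf_mul ?_ ?_) (norm_nonneg _)
          · linarith [hk.1, hk'.1]
          · linarith
      _ = ‖k - k'‖ := one_mul _
  exact add_le_add e2 e1

theorem T_mono {a b b' : ℝ} (h : b ≤ b') : T a b ≤ T a b' := by
  unfold T
  exact max_le_max le_rfl (by linarith)

theorem T_add_le {a b c : ℝ} (hc : 0 ≤ c) : T a (b + c) ≤ T a b + c := by
  unfold T
  rw [← max_add_add_right]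
  exact max_le_max (by linarith) (by linarith)

theorem K1_of_mem {x : SpX} (hx : x ∈ CC) : K1 (kk x) := ⟨hx.2.2.1, hx.2.2.2.1, hx.2.2.2.2.1⟩

theorem mu_smul (c : ℝ) (k : Fin 3 → ℝ) : mu (c • k) = c * mu k := by
  unfold mu
  simp only [Pi.smul_apply, smul_eq_mul]
  ring

theorem fU_mem {x : SpX} (hx : x ∈ CC) :
    mk (dd x) (-(cf ‖ss x‖ • Ft (kk x))) 0 ∈ CC := by
  rw [mk_mem_iff]
  have h0 : mu (-(cf ‖ss x‖ • Ft (kk x))) = 0 := by
    rw [← neg_smul, mu_smul, mu_Ft, mul_zero]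
  rw [h0]
  refine ⟨hx.2.1, le_rfl, by norm_num, fun i => ?_, fun i => le_rfl, norm_nonneg _⟩
  rw [sub_zero, Pi.neg_apply, abs_neg, Pi.smul_apply, smul_eq_mul, abs_mul,
    abs_of_nonneg (cf_nonneg _)]
  calc cf ‖ss x‖ * |Ft (kk x) i| ≤ 1 * 2 :=
        mul_le_mul (cf_le_one (norm_nonneg _)) (Ft_bound (K1_of_mem hx) i) (abs_nonneg _)
          zero_le_one
    _ = 2 := by norm_num

/-- the map whose neighbourhood consists of maps with bounded orbits -/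
noncomputable def fU : Nonexp CC :=
  ⟨fun x => ⟨mk (dd x) (-(cf ‖ss x‖ • Ft (kk x))) 0, fU_mem x.2⟩, by
    intro x y
    rw [Subtype.dist_eq, Subtype.dist_eq, dist_mk, dist_eq x.2 y.2, sub_self, norm_zero, add_zero]
    have h1 : -(cf ‖ss x‖ • Ft (kk x)) - -(cf ‖ss y‖ • Ft (kk y)) =
        -(cf ‖ss x‖ • Ft (kk x) - cf ‖ss y‖ • Ft (kk y)) := by abel
    rw [h1, norm_neg]
    have h2 := Fp_lip (K1_of_mem x.2) (K1_of_mem y.2) x.2.2.2.2.2.2.2 y.2.2.2.2.2.2.2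
    have h3 : |‖ss x‖ - ‖ss y‖| ≤ ‖ss x - ss y‖ := abs_norm_sub_norm_le _ _
    calc T (dd x - dd y) ‖cf ‖ss x‖ • Ft (kk x) - cf ‖ss y‖ • Ft (kk y)‖
        ≤ T (dd x - dd y) (‖kk x - kk y‖ + ‖ss x - ss y‖) := T_mono (by linarith)
      _ ≤ T (dd x - dd y) ‖kk x - kk y‖ + ‖ss x - ss y‖ := T_add_le (norm_nonneg _)⟩

end Pool.Agent.P55f1f5
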