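import Pool.Agent.P55f1f5.Bairey

/-!
# The Banach space and the convex set of the counterexample
-/

namespace Pool.Agent.P55f1f5

open Filter Topology Set

/-- the space of absolutely summable real sequences -/
abbrev L1 : Type := lp (fun _ : ℕ => ℝ) 1

/-- the Banach space `(ℝ ×_∞ (ℝ ×_1 ℝ^3)) ×_1 ℓ^1` (here `ℝ^3` has the maximum norm) -/
abbrev SpX : Type := WithLp 1 ((ℝ × WithLp 1 (ℝ × (Fin 3 → ℝ))) × L1)

/-- the mean of the three coordinates -/
noncomputable def mu (k : Fin 3 → ℝ) : ℝ := (k 0 + k 1 + k 2) / 3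

/-- the vector with components `(d, (7/8 d, k), s)` -/
noncomputable def mk (d : ℝ) (k : Fin 3 → ℝ) (s : L1) : SpX :=
  WithLp.toLp 1 ((d, WithLp.toLp 1 (7 / 8 * d, k)), s)

/-- the first coordinate -/
def dd (x : SpX) : ℝ := x.fst.1

/-- the `ℝ^3` coordinate -/
def kk (x : SpX) : Fin 3 → ℝ := x.fst.2.snd

/-- the `ℓ^1` coordinate -/
def ss (x : SpX) : L1 := x.snd

/-- The convex set: all `(d, (7/8 d, k), s)` with `|d| ≤ 50`, `0 ≤ mu k ≤ 1/2`,
`|k i - mu k| ≤ 2`, `s ≥ 0` and `mu k ≤ ‖s‖`. -/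
def CC : Set SpX := {x | x.fst.2.fst = 7 / 8 * dd x ∧ |dd x| ≤ 50 ∧ 0 ≤ mu (kk x) ∧
  mu (kk x) ≤ 1 / 2 ∧ (∀ i, |kk x i - mu (kk x)| ≤ 2) ∧ (∀ i, 0 ≤ ss x i) ∧
  mu (kk x) ≤ ‖ss x‖}

theorem mem_CC_iff (x : SpX) : x ∈ CC ↔ x.fst.2.fst = 7 / 8 * dd x ∧ |dd x| ≤ 50 ∧
    0 ≤ mu (kk x) ∧ mu (kk x) ≤ 1 / 2 ∧ (∀ i, |kk x i - mu (kk x)| ≤ 2) ∧ (∀ i, 0 ≤ ss x i) ∧
    mu (kk x) ≤ ‖ss x‖ := Iff.rfl

@[simp] theorem dd_mk (d : ℝ) (k : Fin 3 → ℝ) (s : L1) : dd (mk d k s) = d := rfl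
@[simp] theorem kk_mk (d : ℝ) (k : Fin 3 → ℝ) (s : L1) : kk (mk d k s) = k := rfl
@[simp] theorem ss_mk (d : ℝ) (k : Fin 3 → ℝ) (s : L1) : ss (mk d k s) = s := rfl

theorem mk_mem_iff (d : ℝ) (k : Fin 3 → ℝ) (s : L1) : mk d k s ∈ CC ↔ |d| ≤ 50 ∧ 0 ≤ mu k ∧
    mu k ≤ 1 / 2 ∧ (∀ i, |k i - mu k| ≤ 2) ∧ (∀ i, 0 ≤ s i) ∧ mu k ≤ ‖s‖ := by
  rw [mem_CC_iff]
  simp only [dd_mk, kk_mk, ss_mk]
  constructor
  · exact fun h => h.2
  · exact fun h => ⟨rfl, h⟩

theorem eq_mk {x : SpX} (hx : x ∈ CC) : x = mk (dd x) (kk x) (ss x) := by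
  apply WithLp.ofLp_injective
  refine Prod.ext (Prod.ext rfl ?_) rfl
  apply WithLp.ofLp_injective
  exact Prod.ext hx.1 rfl

/-- the norm of the first summand -/
noncomputable def T (a b : ℝ) : ℝ := max |a| (7 / 8 * |a| + b)

theorem dist_mk (d d' : ℝ) (k k' : Fin 3 → ℝ) (s s' : L1) :
    dist (mk d k s) (mk d' k' s') = T (d - d') ‖k - k'‖ + ‖s - s'‖ := by
  rw [WithLp.prod_dist_eq_of_L1]
  unfold mk T
  simp only [WithLp.toLp_fst, WithLp.toLp_snd]
  rw [Prod.dist_eq, WithLp.prod_dist_eq_of_L1]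
  simp only [WithLp.toLp_fst, WithLp.toLp_snd, dist_eq_norm]
  rw [← mul_sub, norm_mul, Real.norm_eq_abs, Real.norm_eq_abs, abs_of_nonneg
    (show (0:ℝ) ≤ 7 / 8 by norm_num)]

theorem dist_eq {x y : SpX} (hx : x ∈ CC) (hy : y ∈ CC) :
    dist x y = T (dd x - dd y) ‖kk x - kk y‖ + ‖ss x - ss y‖ := by
  conv_lhs => rw [eq_mk hx, eq_mk hy]
  exact dist_mk _ _ _ _ _ _

theorem dist_mk_right {x : SpX} (hx : x ∈ CC) (d : ℝ) (k : Fin 3 → ℝ) (s : L1) :
    dist x (mk d k s) = T (dd x - d) ‖kk x - k‖ + ‖ss x - s‖ := by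
  conv_lhs => rw [eq_mk hx]
  exact dist_mk _ _ _ _ _ _

theorem norm_L1 (s : L1) : ‖s‖ = ∑' i, |s i| := by
  have := lp.norm_eq_tsum_rpow (p := 1) (by norm_num) s
  simpa using this

theorem summable_L1 (s : L1) : Summable fun i => |s i| := by
  have := (lp.memℓp s).summable (by norm_num)
  simpa using this

theorem norm_add_of_nonneg {s t : L1} (hs : ∀ i, 0 ≤ s i) (ht : ∀ i, 0 ≤ t i) :
    ‖s + t‖ = ‖s‖ + ‖t‖ := by
  rw [norm_L1, norm_L1, norm_L1, ← (summable_L1 s).tsum_add (summable_L1 t)]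
  congr 1
  ext i
  rw [lp.coeFn_add, Pi.add_apply, abs_of_nonneg (hs i), abs_of_nonneg (ht i),
    abs_of_nonneg (add_nonneg (hs i) (ht i))]

theorem norm_split (s : L1) (i : ℕ) : ‖s‖ = |s i| + ‖s - lp.single 1 i (s i)‖ := by
  have := lp.norm_sub_norm_compl_sub_single (p := 1) (by norm_num) s {i}
  simp only [ENNReal.toReal_one, Real.rpow_one, Finset.sum_singleton, Real.norm_eq_abs] at this
  linarith

theorem isClosed_CC : IsClosed CC := by
  have c1 : Continuous (fun x : SpX => x.fst) := WithLp.continuous_fst ..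
  have cs : Continuous ss := WithLp.continuous_snd ..
  have cd : Continuous dd := continuous_fst.comp c1
  have c2 : Continuous (fun x : SpX => x.fst.2) := continuous_snd.comp c1
  have c3 : Continuous (fun x : SpX => x.fst.2.fst) := (WithLp.continuous_fst ..).comp c2
  have ck : Continuous kk := (WithLp.continuous_snd ..).comp c2
  have cki : ∀ i, Continuous (fun x => kk x i) := fun i => (continuous_apply i).comp ck
  have csi : ∀ i, Continuous (fun x => ss x i) := fun i =>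
    (lp.lipschitzWith_one_eval 1 i).continuous.comp cs
  have cmu : Continuous (fun x => mu (kk x)) := by
    unfold mu
    exact (((cki 0).add (cki 1)).add (cki 2)).div_const 3
  have : CC = {x | x.fst.2.fst = 7 / 8 * dd x} ∩ ({x | |dd x| ≤ 50} ∩ ({x | 0 ≤ mu (kk x)} ∩
      ({x | mu (kk x) ≤ 1 / 2} ∩ ((⋂ i, {x | |kk x i - mu (kk x)| ≤ 2}) ∩
      ((⋂ i, {x | 0 ≤ ss x i}) ∩ {x | mu (kk x) ≤ ‖ss x‖}))))) := by
    ext x
    simp only [CC, mem_ofPred_eq, mem_inter_iff, mem_iInter]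
  rw [this]
  refine (isClosed_eq c3 (continuous_const.mul cd)).inter
    ((isClosed_le cd.abs continuous_const).inter ((isClosed_le continuous_const cmu).inter
    ((isClosed_le cmu continuous_const).inter ((isClosed_iInter fun i =>
    isClosed_le ((cki i).sub cmu).abs continuous_const).inter ((isClosed_iInter fun i =>
    isClosed_le continuous_const (csi i)).inter (isClosed_le cmu cs.norm))))))

theorem abs_comb_le {a b u v c : ℝ} (ha : 0 ≤ a) (hb : 0 ≤ b) (hab : a + b = 1) (hu : |u| ≤ c)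
    (hv : |v| ≤ c) : |a * u + b * v| ≤ c := by
  rw [abs_le] at *
  constructor
  · nlinarith [mul_nonneg ha (sub_nonneg.mpr hu.1), mul_nonneg hb (sub_nonneg.mpr hv.1)]
  · nlinarith [mul_nonneg ha (sub_nonneg.mpr hu.2), mul_nonneg hb (sub_nonneg.mpr hv.2)]

theorem convex_CC : Convex ℝ CC := by
  intro x hx y hy a b ha hb hab
  obtain ⟨x1, x2, x3, x4, x5, x6, x7⟩ := hx
  obtain ⟨y1, y2, y3, y4, y5, y6, y7⟩ := hy
  have hd : dd (a • x + b • y) = a * dd x + b * dd y := rfl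
  have hk : ∀ i, kk (a • x + b • y) i = a * kk x i + b * kk y i := fun i => rfl
  have hs : ss (a • x + b • y) = a • ss x + b • ss y := rfl
  have hm : mu (kk (a • x + b • y)) = a * mu (kk x) + b * mu (kk y) := by
    unfold mu
    rw [hk, hk, hk]
    ring
  have h1 : (a • x + b • y).fst.2.fst = a * x.fst.2.fst + b * y.fst.2.fst := rfl
  refine ⟨?_, ?_, ?_, ?_, ?_, ?_, ?_⟩
  · rw [h1, hd, x1, y1]
    ring
  · rw [hd]
    exact abs_comb_le ha hb hab x2 y2
  · rw [hm]
    positivity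
  · rw [hm]
    nlinarith [mul_le_mul_of_nonneg_left x4 ha, mul_le_mul_of_nonneg_left y4 hb]
  · intro i
    rw [hm, hk]
    have : a * kk x i + b * kk y i - (a * mu (kk x) + b * mu (kk y)) =
        a * (kk x i - mu (kk x)) + b * (kk y i - mu (kk y)) := by ring
    rw [this]
    exact abs_comb_le ha hb hab (x5 i) (y5 i)
  · intro i
    rw [hs, lp.coeFn_add, Pi.add_apply, lp.coeFn_smul, lp.coeFn_smul, Pi.smul_apply,
      Pi.smul_apply, smul_eq_mul, smul_eq_mul]
    exact add_nonneg (mul_nonneg ha (x6 i)) (mul_nonneg hb (y6 i))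
  · rw [hm, hs, norm_add_of_nonneg, norm_smul, norm_smul, Real.norm_of_nonneg ha,
      Real.norm_of_nonneg hb]
    · exact add_le_add (mul_le_mul_of_nonneg_left x7 ha) (mul_le_mul_of_nonneg_left y7 hb)
    · intro i
      rw [lp.coeFn_smul, Pi.smul_apply, smul_eq_mul]
      exact mul_nonneg ha (x6 i)
    · intro i
      rw [lp.coeFn_smul, Pi.smul_apply, smul_eq_mul]
      exact mul_nonneg hb (y6 i)

theorem zero_mem : mk 0 0 0 ∈ CC := by
  rw [mk_mem_iff]
  have : mu (0 : Fin 3 → ℝ) = 0 := by simp [mu]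
  rw [this]
  refine ⟨by norm_num, le_rfl, by norm_num, fun i => by simp, fun i => le_rfl, norm_nonneg _⟩

theorem separable_L1 : TopologicalSpace.SeparableSpace L1 := by
  rw [← TopologicalSpace.isSeparable_univ_iff]
  have h1 : TopologicalSpace.IsSeparable (range fun i : ℕ => (lp.single 1 i (1:ℝ) : L1)) :=
    (countable_range _).isSeparable
  have h2 := (h1.span (R := ℝ)).closure
  refine h2.mono fun s _ => ?_
  have h3 := lp.hasSum_single (p := 1) (by norm_num) s
  refine mem_closure_of_tendsto h3 (Eventually.of_forall fun F => ?_)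
  refine Submodule.sum_mem _ fun i _ => ?_
  have : (lp.single 1 i (s i) : L1) = (s i) • (lp.single 1 i (1:ℝ) : L1) := by
    rw [← lp.single_smul, smul_eq_mul, mul_one]
  rw [this]
  exact Submodule.smul_mem _ _ (Submodule.subset_span ⟨i, rfl⟩)

theorem separable_SpX : TopologicalSpace.SeparableSpace SpX := by
  have := separable_L1
  have : SecondCountableTopology L1 := UniformSpace.secondCountable_of_separable L1
  infer_instance

theorem not_finiteDimensional : ¬ FiniteDimensional ℝ SpX := by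
  intro h
  have hli : LinearIndependent ℝ (fun i : ℕ => mk 0 0 (lp.single 1 i (1:ℝ))) := by
    rw [linearIndependent_iff']
    intro F g hg i hi
    let L : SpX →ₗ[ℝ] ℝ :=
      { toFun := fun x => ss x i
        map_add' := fun x y => rfl
        map_smul' := fun c x => rfl }
    have h1 := congrArg L hg
    rw [map_sum, map_zero] at h1
    have h2 : ∀ j ∈ F, L (g j • mk 0 0 (lp.single 1 j (1:ℝ))) = if j = i then g i else 0 := by
      intro j _
      change g j * (lp.single 1 j (1:ℝ) : L1) i = _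
      rw [lp.single_apply]
      by_cases hji : j = i
      · subst hji
        simp
      · rw [Pi.single_eq_of_ne (Ne.symm hji), if_neg hji, mul_zero]
    rw [Finset.sum_congr rfl h2, Finset.sum_ite_eq' F i, if_pos hi] at h1
    exact h1
  have := hli.finite_of_isNoetherian
  exact not_finite ℕ

end Pool.Agent.P55f1f5
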