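import Pool.Agent.P55f1f5.Quad

/-!
# A nonempty open set of maps with bounded orbits
-/

namespace Pool.Agent.P55f1f5

open Filter Topology Set

/-- a sign -/
def sg : Bool → ℝ
  | true => 1
  | false => -1

theorem sg_not (b : Bool) : sg (!b) = - sg b := by
  cases b <;> simp [sg]

theorem abs_sub_sg (b : Bool) {d : ℝ} (hd : |d| ≤ 50) : |d - 50 * sg b| = 50 - sg b * d := by
  rw [abs_le] at hd
  cases b
  · simp only [sg]
    rw [abs_of_nonneg (by linarith)]
    ring
  · simp only [sg]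
    rw [abs_of_nonpos (by linarith)]
    ring

theorem abs_50_sg (b : Bool) : |50 * sg b| ≤ 50 := by
  cases b <;> simp [sg]

theorem sg_mul_abs (b : Bool) (t : ℝ) : sg b * t ≤ |t| := by
  cases b
  · simp only [sg]
    linarith [neg_le_abs t]
  · simp only [sg]
    linarith [le_abs_self t]

theorem T_le {a b : ℝ} (hb : 0 ≤ b) : T a b ≤ |a| + b := by
  unfold T
  exact max_le (by linarith) (by linarith [abs_nonneg a])

theorem abs_le_T (a b : ℝ) : |a| ≤ T a b := le_max_left _ _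

theorem le_T (a b : ℝ) : 7 / 8 * |a| + b ≤ T a b := le_max_right _ _

theorem T_eq {a b : ℝ} (hb : b ≤ |a| / 8) : T a b = |a| := by
  unfold T
  exact max_eq_left (by linarith)

/-- the three vertices of the configuration -/
def gv (j : Fin 3) : Fin 3 → ℝ := fun i => if i = j then 2 else -1

/-- the images of the three vertices -/
noncomputable def yv (j : Fin 3) : Fin 3 → ℝ := fun i => if i = j then -13 / 8 else 13 / 16

/-- the missing centre -/
noncomputable def pv : Fin 3 → ℝ := fun _ => 1 / 2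

theorem mu_gv : ∀ j : Fin 3, mu (gv j) = 0
  | 0 => by
    change ((2:ℝ) + -1 + -1) / 3 = 0
    norm_num
  | 1 => by
    change ((-1:ℝ) + 2 + -1) / 3 = 0
    norm_num
  | 2 => by
    change ((-1:ℝ) + -1 + 2) / 3 = 0
    norm_num

theorem mu_pv : mu pv = 1 / 2 := by
  unfold mu pv
  norm_num

theorem Fr1 : Fr 2 (-1) (-1) = 13 / 8 := by norm_num [Fr]
theorem Fr2 : Fr (-1) (-1) 2 = -(13 / 16) := by norm_num [Fr]
theorem Fr3 : Fr (-1) 2 (-1) = -(13 / 16) := by norm_num [Fr]

theorem Ft_gv_apply : ∀ j i : Fin 3, -(Ft (gv j) i) = yv j i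
  | 0, 0 => by
    change -(Fr 2 (-1) (-1)) = -13 / 8
    rw [Fr1]
    norm_num
  | 0, 1 => by
    change -(Fr (-1) (-1) 2) = 13 / 16
    rw [Fr2, neg_neg]
  | 0, 2 => by
    change -(Fr (-1) 2 (-1)) = 13 / 16
    rw [Fr3, neg_neg]
  | 1, 0 => by
    change -(Fr (-1) 2 (-1)) = 13 / 16
    rw [Fr3, neg_neg]
  | 1, 1 => by
    change -(Fr 2 (-1) (-1)) = -13 / 8
    rw [Fr1]
    norm_num
  | 1, 2 => by
    change -(Fr (-1) (-1) 2) = 13 / 16
    rw [Fr2, neg_neg]
  | 2, 0 => by
    change -(Fr (-1) (-1) 2) = 13 / 16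
    rw [Fr2, neg_neg]
  | 2, 1 => by
    change -(Fr (-1) 2 (-1)) = 13 / 16
    rw [Fr3, neg_neg]
  | 2, 2 => by
    change -(Fr 2 (-1) (-1)) = -13 / 8
    rw [Fr1]
    norm_num

theorem Ft_gv (j : Fin 3) : -(cf 0 • Ft (gv j)) = yv j := by
  have h0 : cf 0 = 1 := by
    unfold cf
    norm_num
  rw [h0, one_smul]
  ext i
  rw [Pi.neg_apply]
  exact Ft_gv_apply j i

theorem Ft_zero : Ft 0 = 0 := by
  ext i
  unfold Ft Fr
  fin_cases i <;> norm_num

theorem gv_mem (b : Bool) (j : Fin 3) {w : L1} (hw : ∀ i, 0 ≤ w i) :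
    mk (50 * sg b) (gv j) w ∈ CC := by
  rw [mk_mem_iff, mu_gv]
  refine ⟨abs_50_sg b, le_rfl, by norm_num, fun i => ?_, hw, norm_nonneg _⟩
  rw [sub_zero]
  unfold gv
  split_ifs <;> norm_num

theorem pv_mem (b : Bool) {w : L1} (hw : ∀ i, 0 ≤ w i) (hw2 : 1 / 2 ≤ ‖w‖) :
    mk (50 * sg b) pv w ∈ CC := by
  rw [mk_mem_iff, mu_pv]
  refine ⟨abs_50_sg b, by norm_num, le_rfl, fun i => ?_, hw, hw2⟩
  unfold pv
  norm_num

theorem q_mem (b : Bool) : mk (50 * sg b) 0 0 ∈ CC := by
  rw [mk_mem_iff]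
  have : mu (0 : Fin 3 → ℝ) = 0 := by simp [mu]
  rw [this]
  exact ⟨abs_50_sg b, le_rfl, by norm_num, fun i => by simp, fun i => le_rfl, norm_nonneg _⟩

/-- the two reference points -/
noncomputable def Qp (b : Bool) : CC := ⟨mk (50 * sg b) 0 0, q_mem b⟩

/-- the six points of the configuration -/
noncomputable def Xp (b : Bool) (j : Fin 3) : CC :=
  ⟨mk (50 * sg b) (gv j) 0, gv_mem b j (fun _ => le_rfl)⟩

/-- the open set -/
def UU : Set (Nonexp CC) := {h | ∀ b, dist (h.1 (Qp b)) (fU.1 (Qp b)) < 1 / 64 ∧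
  ∀ j, dist (h.1 (Xp b j)) (fU.1 (Xp b j)) < 1 / 64}

theorem isOpen_UU : IsOpen UU := by
  have : UU = ⋂ b, ({h | dist (h.1 (Qp b)) (fU.1 (Qp b)) < 1 / 64} ∩
      ⋂ j, {h | dist (h.1 (Xp b j)) (fU.1 (Xp b j)) < 1 / 64}) := by
    ext h
    simp only [UU, mem_ofPred_eq, mem_iInter, mem_inter_iff]
  rw [this]
  refine isOpen_iInter_of_finite fun b => ?_
  refine IsOpen.inter ?_ ?_
  · exact isOpen_lt ((continuous_eval _).dist continuous_const) continuous_const
  · refine isOpen_iInter_of_finite fun j => ?_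
    exact isOpen_lt ((continuous_eval _).dist continuous_const) continuous_const

theorem fU_mem_UU : fU ∈ UU := by
  intro b
  refine ⟨?_, fun j => ?_⟩
  · rw [dist_self]
    norm_num
  · rw [dist_self]
    norm_num

theorem fU_Qp (b : Bool) : ((fU.1 (Qp b) : CC) : SpX) = mk (50 * sg b) 0 0 := by
  change mk (50 * sg b) (-(cf ‖(0 : L1)‖ • Ft 0)) 0 = _
  rw [Ft_zero, smul_zero, neg_zero]

theorem fU_Xp (b : Bool) (j : Fin 3) :
    ((fU.1 (Xp b j) : CC) : SpX) = mk (50 * sg b) (yv j) 0 := by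
  change mk (50 * sg b) (-(cf ‖(0 : L1)‖ • Ft (gv j))) 0 = _
  rw [norm_zero, Ft_gv]

theorem kk_abs {x : SpX} (hx : x ∈ CC) (i : Fin 3) : |kk x i| ≤ 5 / 2 := by
  obtain ⟨h0, h1, h2⟩ := K1_of_mem hx
  have := abs_le.mp (h2 i)
  rw [abs_le]
  constructor <;> linarith

theorem kk_norm {x : SpX} (hx : x ∈ CC) : ‖kk x‖ ≤ 5 / 2 := by
  rw [pi_norm_le_iff_of_nonneg (by norm_num)]
  exact kk_abs hx

theorem kk_norm_sub {x : SpX} (hx : x ∈ CC) {k : Fin 3 → ℝ} (hk : ∀ i, |k i| ≤ 2) :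
    ‖kk x - k‖ ≤ 9 / 2 := by
  rw [pi_norm_le_iff_of_nonneg (by norm_num)]
  intro i
  rw [Pi.sub_apply, Real.norm_eq_abs]
  have h1 := abs_le.mp (kk_abs hx i)
  have h2 := abs_le.mp (hk i)
  rw [abs_le]
  constructor <;> linarith

theorem gv_abs (j i : Fin 3) : |gv j i| ≤ 2 := by
  unfold gv
  split_ifs <;> norm_num

theorem data_Q {h : Nonexp CC} (hh : h ∈ UU) (b : Bool) (z : CC) :
    dist ((h.1 z : CC) : SpX) (mk (50 * sg b) 0 0) ≤
      dist (z : SpX) (mk (50 * sg b) 0 0) + 1 / 64 := by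
  have h1 := (hh b).1
  rw [Subtype.dist_eq, fU_Qp] at h1
  have h2 := h.2 z (Qp b)
  rw [Subtype.dist_eq, Subtype.dist_eq] at h2
  have h3 := dist_triangle ((h.1 z : CC) : SpX) (h.1 (Qp b)) (mk (50 * sg b) 0 0)
  have h4 : ((Qp b : CC) : SpX) = mk (50 * sg b) 0 0 := rfl
  rw [h4] at h2
  linarith

/-- The trap: far maps lose distance to one of the two reference points. -/
theorem trap {h : Nonexp CC} (hh : h ∈ UU) (b : Bool) (z : CC) (hz : sg b * dd z ≤ 0)
    (hR : 1 / 2 ≤ ‖ss (z : SpX)‖) :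
    dist ((h.1 z : CC) : SpX) (mk (50 * sg b) 0 0) ≤
      dist (z : SpX) (mk (50 * sg b) 0 0) - 1 / 64 := by
  by_contra hA
  rw [not_le] at hA
  have hzC : (z : SpX) ∈ CC := z.2
  have hz'C : ((h.1 z : CC) : SpX) ∈ CC := (h.1 z).2
  set z' : SpX := ((h.1 z : CC) : SpX) with hz'
  have hdz : |dd (z : SpX)| ≤ 50 := hzC.2.1
  have hdz' : |dd z'| ≤ 50 := hz'C.2.1
  have aD := abs_sub_sg b hdz
  have aD' := abs_sub_sg b hdz'
  have e1 : dist (z : SpX) (mk (50 * sg b) 0 0) = (50 - sg b * dd (z : SpX)) + ‖ss (z : SpX)‖ := by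
    rw [dist_mk_right hzC, T_eq, aD, sub_zero]
    rw [sub_zero, aD]
    linarith [kk_norm hzC]
  -- the other reference point
  have e3 := data_Q hh (!b) z
  have e4 : dist (z : SpX) (mk (50 * sg (!b)) 0 0) ≤
      (50 + sg b * dd (z : SpX)) + 5 / 2 + ‖ss (z : SpX)‖ := by
    rw [dist_mk_right hzC, sub_zero, sub_zero]
    have := T_le (a := dd (z : SpX) - 50 * sg (!b)) (norm_nonneg (kk (z : SpX)))
    rw [abs_sub_sg (!b) hdz, sg_not] at this
    rw [sg_not]
    linarith [kk_norm hzC]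
  have e5 : (50 + sg b * dd z') + ‖ss z'‖ ≤ dist z' (mk (50 * sg (!b)) 0 0) := by
    rw [dist_mk_right hz'C, sub_zero, sub_zero]
    have := abs_le_T (dd z' - 50 * sg (!b)) ‖kk z'‖
    rw [abs_sub_sg (!b) hdz', sg_not] at this
    rw [sg_not]
    linarith
  have e6 : dist z' (mk (50 * sg b) 0 0) = T (dd z' - 50 * sg b) ‖kk z'‖ + ‖ss z'‖ := by
    rw [dist_mk_right hz'C, sub_zero, sub_zero]
  have hk' := kk_norm hz'C
  -- z' is far from the first reference plane
  have h36 : 36 ≤ 50 - sg b * dd z' := by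
    by_contra hc
    rw [not_le] at hc
    have hT : T (dd z' - 50 * sg b) ‖kk z'‖ ≤ 36 := by
      unfold T
      rw [aD']
      exact max_le (by linarith) (by linarith)
    rw [e1, e6] at hA
    linarith
  have e7 : dist z' (mk (50 * sg b) 0 0) = (50 - sg b * dd z') + ‖ss z'‖ := by
    rw [e6, T_eq, aD']
    rw [aD']
    linarith
  rw [e1, e7] at hA
  -- the submass
  set R : ℝ := ‖ss (z : SpX)‖ with hRdef
  have hR0 : 0 < R := by linarith
  set w : L1 := (1 / (2 * R)) • ss (z : SpX) with hw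
  have hwn : ‖w‖ = 1 / 2 := by
    rw [hw, norm_smul, Real.norm_of_nonneg (by positivity), ← hRdef]
    field_simp
  have hw0 : ∀ i, 0 ≤ w i := by
    intro i
    rw [hw, lp.coeFn_smul, Pi.smul_apply, smul_eq_mul]
    exact mul_nonneg (by positivity) (hzC.2.2.2.2.2.1 i)
  have hwz : ‖w - ss (z : SpX)‖ = R - 1 / 2 := by
    have : w - ss (z : SpX) = (-(1 - 1 / (2 * R))) • ss (z : SpX) := by
      rw [hw, neg_smul, sub_smul, one_smul]
      abel
    rw [this, norm_smul, norm_neg, ← hRdef, Real.norm_of_nonneg]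
    · field_simp
    · rw [sub_nonneg, div_le_one (by positivity)]
      linarith
  let P : CC := ⟨mk (50 * sg b) pv w, pv_mem b hw0 hwn.ge⟩
  have key : ∀ j, kk ((h.1 P : CC) : SpX) j < 0 := by
    intro j
    let Xj : CC := ⟨mk (50 * sg b) (gv j) w, gv_mem b j hw0⟩
    have huC : ((h.1 Xj : CC) : SpX) ∈ CC := (h.1 Xj).2
    set u : SpX := ((h.1 Xj : CC) : SpX) with hu
    have hdu : |dd u| ≤ 50 := huC.2.1
    have aDu := abs_sub_sg b hdu
    have f5 : T (dd u - 50 * sg b) ‖kk u - yv j‖ + ‖ss u‖ ≤ 1 / 2 + 1 / 64 := by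
      have h1 := (hh b).2 j
      rw [Subtype.dist_eq, fU_Xp] at h1
      have h2 := h.2 Xj (Xp b j)
      rw [Subtype.dist_eq, Subtype.dist_eq] at h2
      have h3 : dist ((Xj : CC) : SpX) (Xp b j : CC) = 1 / 2 := by
        change dist (mk (50 * sg b) (gv j) w) (mk (50 * sg b) (gv j) 0) = _
        rw [dist_mk, sub_self, sub_self, norm_zero, sub_zero, hwn]
        unfold T
        norm_num
      have h4 := dist_triangle u (h.1 (Xp b j) : CC) (mk (50 * sg b) (yv j) 0)
      rw [dist_mk_right huC, sub_zero] at h4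
      linarith
    have f6 : T (dd u - dd z') ‖kk u - kk z'‖ + ‖ss u - ss z'‖ ≤
        (50 - sg b * dd (z : SpX)) + R - 1 / 2 := by
      have h2 := h.2 Xj z
      rw [Subtype.dist_eq, Subtype.dist_eq, dist_eq huC hz'C] at h2
      have h3 : dist ((Xj : CC) : SpX) (z : SpX) = (50 - sg b * dd (z : SpX)) + (R - 1 / 2) := by
        rw [dist_comm]
        change dist (z : SpX) (mk (50 * sg b) (gv j) w) = _
        rw [dist_mk_right hzC, norm_sub_rev (ss (z : SpX)) w, hwz, T_eq, aD]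
        rw [aD]
        linarith [kk_norm_sub hzC (gv_abs j)]
      linarith
    have f7 : (50 - sg b * dd z') - (50 - sg b * dd u) ≤ T (dd u - dd z') ‖kk u - kk z'‖ := by
      have h1 := abs_le_T (dd u - dd z') ‖kk u - kk z'‖
      have h2 := sg_mul_abs b (dd u - dd z')
      rw [mul_sub] at h2
      linarith
    have f8 : ‖ss z'‖ - ‖ss u‖ ≤ ‖ss u - ss z'‖ := by
      rw [norm_sub_rev]
      exact norm_sub_norm_le _ _
    have f9 := le_T (dd u - 50 * sg b) ‖kk u - yv j‖
    have f10 := abs_le_T (dd u - 50 * sg b) ‖kk u - yv j‖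
    rw [aDu] at f9 f10
    have f11 : ‖kk u - yv j‖ ≤ 49 / 512 := by
      linarith [norm_nonneg (ss u)]
    have f12 : ‖kk ((h.1 P : CC) : SpX) - kk u‖ ≤ 3 / 2 := by
      have h2 := h.2 P Xj
      rw [Subtype.dist_eq, Subtype.dist_eq, dist_eq (h.1 P).2 huC] at h2
      have h3 : dist ((P : CC) : SpX) (Xj : CC) ≤ 3 / 2 := by
        change dist (mk (50 * sg b) pv w) (mk (50 * sg b) (gv j) w) ≤ _
        rw [dist_mk, sub_self, sub_self, norm_zero, add_zero]
        have h4 : ‖pv - gv j‖ ≤ 3 / 2 := by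
          rw [pi_norm_le_iff_of_nonneg (by norm_num)]
          intro i
          rw [Pi.sub_apply, Real.norm_eq_abs]
          unfold pv gv
          split_ifs <;> rw [abs_le] <;> norm_num
        unfold T
        rw [abs_zero]
        exact max_le (by norm_num) (by linarith)
      have h5 := le_T (dd ((h.1 P : CC) : SpX) - dd u) ‖kk ((h.1 P : CC) : SpX) - kk u‖
      linarith [abs_nonneg (dd ((h.1 P : CC) : SpX) - dd u),
        norm_nonneg (ss ((h.1 P : CC) : SpX) - ss u)]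
    have f13 : |(kk ((h.1 P : CC) : SpX) - kk u) j| ≤ 3 / 2 := (norm_le_pi_norm _ j).trans f12
    have f14 : |(kk u - yv j) j| ≤ 49 / 512 := (norm_le_pi_norm _ j).trans f11
    rw [Pi.sub_apply] at f13 f14
    have f15 : yv j j = -13 / 8 := by
      unfold yv
      rw [if_pos rfl]
    rw [f15] at f14
    rw [abs_le] at f13 f14
    linarith
  have h0 : 0 ≤ mu (kk ((h.1 P : CC) : SpX)) := (K1_of_mem (h.1 P).2).1
  unfold mu at h0
  linarith [key 0, key 1, key 2]

theorem dist_Q_le {x : SpX} (hx : x ∈ CC) (b : Bool) :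
    dist x (mk (50 * sg b) 0 0) ≤ (50 - sg b * dd x) + 5 / 2 + ‖ss x‖ := by
  rw [dist_mk_right hx, sub_zero, sub_zero]
  have := T_le (a := dd x - 50 * sg b) (norm_nonneg (kk x))
  rw [abs_sub_sg b hx.2.1] at this
  linarith [kk_norm hx]

theorem UU_subset : UU ⊆ InvSet CC := by
  intro h hh
  rw [mem_InvSet_iff isClosed_CC convex_CC (Qp true)]
  refine ⟨110, fun n => ?_⟩
  have key : ∀ n : ℕ, dist (((h.1)^[n] (Qp true) : CC) : SpX) (mk (50 * sg true) 0 0) +
      dist (((h.1)^[n] (Qp true) : CC) : SpX) (mk (50 * sg false) 0 0) ≤ 110 := by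
    intro n
    induction n with
    | zero =>
      have h1 := dist_Q_le (Qp true).2 true
      have h2 := dist_Q_le (Qp true).2 false
      have h3 : ss ((Qp true : CC) : SpX) = 0 := rfl
      rw [h3, norm_zero] at h1 h2
      simp only [Function.iterate_zero, id_eq]
      set A := dist ((Qp true : CC) : SpX) (mk (50 * sg true) 0 0)
      set B := dist ((Qp true : CC) : SpX) (mk (50 * sg false) 0 0)
      simp only [sg] at h1 h2
      linarith
    | succ n ih =>
      rw [Function.iterate_succ_apply']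
      set z : CC := (h.1)^[n] (Qp true) with hz
      have a1 := data_Q hh true z
      have a2 := data_Q hh false z
      rcases le_total (1 / 2) ‖ss (z : SpX)‖ with hR | hR
      · rcases le_total (dd (z : SpX)) 0 with hd | hd
        · have := trap hh true z (by simp only [sg]; linarith) hR
          linarith
        · have := trap hh false z (by simp only [sg]; linarith) hR
          linarith
      · have h1 := dist_Q_le z.2 true
        have h2 := dist_Q_le z.2 false
        set A := dist (z : SpX) (mk (50 * sg true) 0 0)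
        set B := dist (z : SpX) (mk (50 * sg false) 0 0)
        simp only [sg] at h1 h2
        linarith
  have := key n
  rw [Subtype.dist_eq]
  have h4 : ((Qp true : CC) : SpX) = mk (50 * sg true) 0 0 := rfl
  rw [h4]
  linarith [dist_nonneg (x := (((h.1)^[n] (Qp true) : CC) : SpX)) (y := mk (50 * sg false) 0 0)]

end Pool.Agent.P55f1f5
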